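import Mathlib
import Pool.Agent.Helper184.MolsDefs

/-! André quasifields twisted on one norm class, read off a non-translation line. -/

set_option autoImplicit false
set_option linter.unusedSectionVars false

namespace Pool.Agent.Helper478.MolsA

open Pool.Agent.Helper184.Mols

variable {K : Type} [Field K] [Fintype K] {q t : ℕ}

/-- The standing assumptions: `x ↦ x ^ q` is additive and `t (q - 1) = |K| - 1`. -/
structure Good (K : Type) [Field K] [Fintype K] (q t : ℕ) : Prop where
  add : ∀ x y : K, (x + y) ^ q = x ^ q + y ^ q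
  two : 2 ≤ q
  mul : t * (q - 1) = Fintype.card K - 1

open Classical in
/-- The multiplication of the quasifield. -/
noncomputable def mu (q t : ℕ) (x m : K) : K := if m ^ t = 1 then x ^ q * m else x * m

open Classical in
/-- Left division. -/
noncomputable def di (q t : ℕ) (c y : K) : K := if (y / c) ^ t = 1 then y / c ^ q else y / c

open Classical in
/-- The latin square with parameter `a`. -/
noncomputable def L (q t : ℕ) (a c m : K) : K := if c = 0 then m else di q t c (mu q t c m - a)

theorem Good.sub (h : Good K q t) (x y : K) : (x - y) ^ q = x ^ q - y ^ q := by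
  have := h.add (x - y) y
  rw [sub_add_cancel] at this
  rw [this]; ring

theorem mu_sub (h : Good K q t) (x y m : K) : mu q t (x - y) m = mu q t x m - mu q t y m := by
  unfold mu
  split_ifs
  · rw [h.sub]; ring
  · ring

theorem mu_zero (h : Good K q t) (m : K) : mu q t 0 m = 0 := by
  have : q ≠ 0 := by have := h.two; omega
  unfold mu
  split_ifs <;> simp [this]

theorem pow_norm (h : Good K q t) {c : K} (hc : c ≠ 0) : (c ^ (q - 1)) ^ t = 1 := by
  rw [← pow_mul, mul_comm, h.mul]
  exact FiniteField.pow_card_sub_one_eq_one c hc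

theorem pow_q (h : Good K q t) (c : K) : c ^ q = c ^ (q - 1) * c := by
  rw [← pow_succ]
  congr 1
  have := h.two
  omega

theorem mu_di (h : Good K q t) {c : K} (hc : c ≠ 0) (y : K) : mu q t c (di q t c y) = y := by
  have hcq : c ^ q ≠ 0 := pow_ne_zero _ hc
  unfold di
  split_ifs with h1
  · have h2 : (y / c ^ q) ^ t = 1 := by
      have h3 : y / c ^ q = (y / c) / c ^ (q - 1) := by
        rw [pow_q h c]
        have := pow_ne_zero (q - 1) hc
        field_simp
      rw [h3, div_pow, h1, pow_norm h hc, div_one]
    unfold mu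
    rw [if_pos h2]
    field_simp
  · unfold mu
    rw [if_neg h1]
    field_simp

theorem mu_inj (h : Good K q t) {c m m' : K} (hc : c ≠ 0) (hm : mu q t c m = mu q t c m') :
    m = m' := by
  have hcq : c ^ q ≠ 0 := pow_ne_zero _ hc
  have key : ∀ m m' : K, m ^ t = 1 → c ^ q * m = c * m' → m' ^ t = 1 := by
    intro m m' h1 h2
    have h3 : m' = c ^ (q - 1) * m := by
      rw [pow_q h c] at h2
      apply mul_left_cancel₀ hc
      rw [← h2]; ring
    rw [h3, mul_pow, pow_norm h hc, h1, one_mul]
  unfold mu at hm
  split_ifs at hm with h1 h2 h2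
  · exact mul_left_cancel₀ hcq hm
  · exact absurd (key _ _ h1 hm) h2
  · exact absurd (key _ _ h2 hm.symm) h1
  · exact mul_left_cancel₀ hc hm

theorem L_zero (a m : K) : L q t a 0 m = m := by simp [L]

theorem L_eq_iff (h : Good K q t) {a c m w : K} (hc : c ≠ 0) :
    L q t a c m = w ↔ mu q t c m - mu q t c w = a := by
  unfold L
  rw [if_neg hc]
  constructor
  · intro h1
    rw [← h1, mu_di h hc]; ring
  · intro h1
    apply mu_inj h hc
    rw [mu_di h hc, ← h1]; ring

theorem phi_inj (h : Good K q t) {u w y y' : K} (huw : u ≠ w)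
    (h1 : mu q t y u - mu q t y w = mu q t y' u - mu q t y' w) : y = y' := by
  by_contra hne
  have h2 : mu q t (y - y') u = mu q t (y - y') w := by
    rw [mu_sub h, mu_sub h]
    linear_combination h1
  exact huw (mu_inj h (sub_ne_zero.mpr hne) h2)

theorem L_quasigroup (h : Good K q t) {a : K} (ha : a ≠ 0) : IsQuasigroup (L q t a : K → K → K) := by
  constructor
  · intro c w
    by_cases hc : c = 0
    · subst hc
      exact ⟨w, L_zero a w, fun y hy => by simpa [L_zero] using hy⟩
    · refine ⟨di q t c (mu q t c w + a), ?_, ?_⟩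
      · show L q t a c (di q t c (mu q t c w + a)) = w
        rw [L_eq_iff h hc, mu_di h hc]; ring
      · intro y hy
        rw [L_eq_iff h hc] at hy
        apply mu_inj h hc
        rw [mu_di h hc, ← hy]; ring
  · intro u w
    by_cases huw : u = w
    · subst huw
      refine ⟨0, L_zero a u, ?_⟩
      intro z hz
      by_contra hz0
      rw [L_eq_iff h hz0, sub_self] at hz
      exact ha hz.symm
    · have hinj : Function.Injective (fun y => mu q t y u - mu q t y w) :=
        fun y y' h1 => phi_inj h huw h1
      obtain ⟨y, hy⟩ := (Finite.surjective_of_injective hinj) a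
      simp only at hy
      have hy0 : y ≠ 0 := by
        intro h0; rw [h0, mu_zero h, mu_zero h, sub_zero] at hy; exact ha hy.symm
      refine ⟨y, ?_, ?_⟩
      · show L q t a y u = w
        rw [L_eq_iff h hy0]; exact hy
      · intro z hz
        have hz0 : z ≠ 0 := by
          intro h0; rw [h0, L_zero] at hz; exact huw hz
        rw [L_eq_iff h hz0] at hz
        exact phi_inj h huw (by rw [hz, hy])

theorem L_orthogonal (h : Good K q t) {a b : K} (hab : a ≠ b) :
    Orthogonal (L q t a : K → K → K) (L q t b) := by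
  rintro ⟨z, u⟩ ⟨z', u'⟩ h0
  simp only [Prod.mk.injEq] at h0
  obtain ⟨h1, h2⟩ := h0
  have key : ∀ z u : K, z ≠ 0 → L q t a z u ≠ L q t b z u := by
    intro z u hz h3
    have e1 := (L_eq_iff h (a := b) (m := u) hz).mp h3.symm
    have e2 := (L_eq_iff h (a := a) (m := u) hz).mp rfl
    rw [e1] at e2
    exact hab e2.symm
  by_cases hz : z = 0
  · subst hz
    rw [L_zero] at h1 h2
    have hz' : z' = 0 := by
      by_contra hz'
      exact key z' u' hz' (by rw [← h1, ← h2])
    subst hz'
    rw [L_zero] at h1
    rw [h1]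
  · have hz' : z' ≠ 0 := by
      intro hz'
      subst hz'
      rw [L_zero] at h1 h2
      exact key z u hz (by rw [h1, h2])
    set s := L q t a z' u' with hs
    set r := L q t b z' u' with hr
    have e1 := (L_eq_iff h (a := a) (m := u) (w := s) hz).mp h1
    have e2 := (L_eq_iff h (a := b) (m := u) (w := r) hz).mp h2
    have e3 := (L_eq_iff h (a := a) (m := u') (w := s) hz').mp hs.symm
    have e4 := (L_eq_iff h (a := b) (m := u') (w := r) hz').mp hr.symm
    have hst : s ≠ r := key z' u' hz'
    have h5 : mu q t z s - mu q t z r = mu q t z' s - mu q t z' r := by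
      linear_combination e2 - e1 - e4 + e3
    have h6 : z = z' := phi_inj h hst h5
    subst h6
    have h8 : mu q t z u = mu q t z u' := by linear_combination e1 - e3
    rw [mu_inj h hz h8]

/-- A latin square isotopic to a group, with the identity among its rows, has rows closed under
composition. -/
theorem rows_closed {a : K} (hG : IsotopicToGroup (L q t a : K → K → K)) (c c' : K) :
    ∃ c'' : K, ∀ m : K, L q t a c (L q t a c' m) = L q t a c'' m := by
  obtain ⟨G, hGG, α, β, γ, h⟩ := hG
  have h0 : ∀ m, β m = (α 0)⁻¹ * γ m := by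
    intro m
    have := h 0 m
    rw [L_zero] at this
    rw [this]; group
  refine ⟨α.symm (α c * (α 0)⁻¹ * (α c')), fun m => γ.injective ?_⟩
  rw [h, h0, h, h]
  simp only [Equiv.apply_symm_apply]
  group

/-- Generic points are translated. -/
theorem L_gen {a c m : K} (hc : c ≠ 0) (h1 : m ^ t ≠ 1) (h2 : (m - a / c) ^ t ≠ 1) :
    L q t a c m = m - a / c := by
  unfold L
  rw [if_neg hc]
  unfold mu
  rw [if_neg h1]
  have e : (c * m - a) / c = m - a / c := by field_simp
  unfold di
  rw [e, if_neg h2]

/-- Points going to the class `1`. -/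
theorem L_one {a c m : K} (hc : c ≠ 0) (h1 : m ^ t ≠ 1) (h2 : m - a / c = 1) :
    L q t a c m = c / c ^ q := by
  unfold L
  rw [if_neg hc]
  unfold mu
  rw [if_neg h1]
  have e : c * m - a = c := by
    have : c * (m - a / c) = c * 1 := by rw [h2]
    field_simp at this
    linear_combination this
  unfold di
  rw [e, div_self hc, one_pow, if_pos rfl]

/-- The squares are not isotopic to groups, given suitable elements `v`, `m`. -/
theorem not_group (h : Good K q t) (ht : t ≠ 0) {a v m : K} (ha : a ≠ 0)
    (v1 : (-v) ^ t ≠ 1) (v2 : (1 + v) ^ q ≠ 1 + v)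
    (m1 : m ^ t ≠ 1) (m2 : (m - v) ^ t ≠ 1) (m3 : (m + 1) ^ t ≠ 1) :
    ¬ IsotopicToGroup (L q t a : K → K → K) := by
  intro hG
  have hq0 : q ≠ 0 := by have := h.two; omega
  have hv : v ≠ 0 := by
    rintro rfl
    apply v2; simp
  have hv1 : 1 + v ≠ 0 := by
    intro h0
    apply v2; rw [h0]; simp [hq0]
  have h0t : (0 : K) ^ t ≠ 1 := by simp [ht]
  have hna : -a ≠ 0 := neg_ne_zero.mpr ha
  obtain ⟨c'', hc''⟩ := rows_closed hG (-a / (1 + v)) (a / v)
  have hcne : -a / (1 + v) ≠ 0 := div_ne_zero hna hv1
  have hcne' : a / v ≠ 0 := div_ne_zero ha hv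
  have d1 : a / (a / v) = v := by field_simp
  have d2 : a / (-a / (1 + v)) = -(1 + v) := by field_simp
  have d3 : a / (-a) = -1 := by field_simp
  -- the generic point
  have g1 : L q t a (a / v) m = m - v := by
    rw [L_gen hcne' m1 (by rw [d1]; exact m2), d1]
  have g2 : L q t a (-a / (1 + v)) (m - v) = m + 1 := by
    have e : m - v - a / (-a / (1 + v)) = m + 1 := by rw [d2]; ring
    rw [L_gen hcne m2 (by rw [e]; exact m3), e]
  have g3 : L q t a (-a) m = m + 1 := by
    have e : m - a / (-a) = m + 1 := by rw [d3]; ring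
    rw [L_gen hna m1 (by rw [e]; exact m3), e]
  have g4 : L q t a c'' m = m + 1 := by rw [← hc'' m, g1, g2]
  have hcc : c'' = -a := ((L_quasigroup h ha).2 m (m + 1)).unique g4 g3
  -- the point zero
  have z1 : L q t a (a / v) 0 = -v := by
    have e : (0 : K) - a / (a / v) = -v := by rw [d1]; ring
    rw [L_gen hcne' h0t (by rw [e]; exact v1), e]
  have z2 : L q t a (-a / (1 + v)) (-v) = (-a / (1 + v)) / (-a / (1 + v)) ^ q := by
    apply L_one hcne v1
    rw [d2]; ring
  have z3 : L q t a (-a) 0 = (-a) / (-a) ^ q := by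
    apply L_one hna h0t
    rw [d3]; ring
  have z4 := hc'' 0
  rw [hcc, z1, z2, z3] at z4
  apply v2
  have p1 : (-a) ^ q ≠ 0 := pow_ne_zero _ hna
  have p2 : (1 + v) ^ q ≠ 0 := pow_ne_zero _ hv1
  rw [div_pow] at z4
  field_simp at z4
  linear_combination -z4

end Pool.Agent.Helper478.MolsA
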