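import Mathlib
import Pool.Agent.Helper184.MolsDefs
import Pool.Agent.Helper478.MolsA

/-! Existence of the elements `v`, `m` needed in `not_group`. -/

set_option autoImplicit false
set_option linter.unusedSectionVars false

namespace Pool.Agent.Helper478.MolsB

open Pool.Agent.Helper184.Mols Pool.Agent.Helper478.MolsA Polynomial

variable {K : Type} [Field K] [Fintype K] {q t : ℕ}

open Classical in
theorem exists_big (h : Good K q t) (hq : 4 ≤ q) (hK : q ^ 2 ≤ Fintype.card K) :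
    t ≠ 0 ∧ ∃ v m : K, (-v) ^ t ≠ 1 ∧ (1 + v) ^ q ≠ 1 + v ∧ m ^ t ≠ 1 ∧ (m - v) ^ t ≠ 1 ∧
      (m + 1) ^ t ≠ 1 := by
  have hmul := h.mul
  obtain ⟨r, rfl⟩ : ∃ r, q = r + 4 := ⟨q - 4, by omega⟩
  have hr : r + 4 - 1 = r + 3 := by omega
  rw [hr] at hmul
  have hcard : 16 ≤ Fintype.card K := by nlinarith
  have ht : t ≠ 0 := by
    rintro rfl
    omega
  have htpos : 0 < t := Nat.pos_of_ne_zero ht
  have hmul' : t * (r + 3) + 1 = Fintype.card K := by omega
  have h3t : 3 * t < Fintype.card K := by nlinarith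
  set B : Finset K := (nthRoots t (1 : K)).toFinset with hB
  set C : Finset K := (nthRoots (r + 3) (1 : K)).toFinset with hC
  have hBm : ∀ x : K, x ∈ B ↔ x ^ t = 1 := by
    intro x; rw [hB, Multiset.mem_toFinset, mem_nthRoots htpos]
  have hCm : ∀ x : K, x ∈ C ↔ x ^ (r + 3) = 1 := by
    intro x; rw [hC, Multiset.mem_toFinset, mem_nthRoots (by omega)]
  have hBc : B.card ≤ t := (Multiset.toFinset_card_le _).trans (card_nthRoots t 1)
  have hCc : C.card ≤ r + 3 := (Multiset.toFinset_card_le _).trans (card_nthRoots _ 1)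
  refine ⟨ht, ?_⟩
  have hV : ((B.image (fun x => -x)) ∪ (C.image (fun x => x - 1)) ∪ {(-1 : K)}).card
      < (Finset.univ : Finset K).card := by
    have e1 := Finset.card_union_le ((B.image (fun x => -x)) ∪ (C.image (fun x => x - 1)))
      {(-1 : K)}
    have e2 := Finset.card_union_le (B.image (fun x => -x)) (C.image (fun x => x - 1))
    have e3 := Finset.card_image_le (s := B) (f := fun x => -x)
    have e4 := Finset.card_image_le (s := C) (f := fun x => x - 1)
    rw [Finset.card_singleton] at e1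
    rw [Finset.card_univ]
    have : t + (r + 4) < Fintype.card K := by nlinarith
    omega
  obtain ⟨v, -, hv⟩ := Finset.exists_mem_notMem_of_card_lt_card hV
  have hM : (B ∪ (B.image (fun x => x + v)) ∪ (B.image (fun x => x - 1))).card
      < (Finset.univ : Finset K).card := by
    have e1 := Finset.card_union_le (B ∪ (B.image (fun x => x + v))) (B.image (fun x => x - 1))
    have e2 := Finset.card_union_le B (B.image (fun x => x + v))
    have e3 := Finset.card_image_le (s := B) (f := fun x => x + v)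
    have e4 := Finset.card_image_le (s := B) (f := fun x => x - 1)
    rw [Finset.card_univ]
    omega
  obtain ⟨m, -, hm⟩ := Finset.exists_mem_notMem_of_card_lt_card hM
  simp only [Finset.mem_union, Finset.mem_image, Finset.mem_singleton, not_or, not_exists,
    not_and] at hv hm
  obtain ⟨⟨hv1, hv2⟩, hv3⟩ := hv
  obtain ⟨⟨hm1, hm2⟩, hm3⟩ := hm
  refine ⟨v, m, ?_, ?_, ?_, ?_, ?_⟩
  · intro h1
    exact hv1 (-v) ((hBm _).mpr h1) (by ring)
  · intro h1
    have hne : 1 + v ≠ 0 := by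
      intro h0
      apply hv3
      linear_combination h0
    have h2 : (1 + v) ^ (r + 3) = 1 := by
      have e : (1 + v) ^ (r + 4) = (1 + v) ^ (r + 3) * (1 + v) := pow_succ _ _
      rw [e] at h1
      exact mul_right_cancel₀ hne (by rw [h1, one_mul])
    exact hv2 (1 + v) ((hCm _).mpr h2) (by ring)
  · intro h1
    exact hm1 ((hBm _).mpr h1)
  · intro h1
    exact hm2 (m - v) ((hBm _).mpr h1) (by ring)
  · intro h1
    exact hm3 (m + 1) ((hBm _).mpr h1) (by ring)

theorem exists_three (h : Good K 3 t) (h3 : (3 : K) = 0) (hodd : Odd t)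
    (hcard : 4 ≤ Fintype.card K) :
    t ≠ 0 ∧ ∃ v m : K, (-v) ^ t ≠ 1 ∧ (1 + v) ^ 3 ≠ 1 + v ∧ m ^ t ≠ 1 ∧ (m - v) ^ t ≠ 1 ∧
      (m + 1) ^ t ≠ 1 := by
  classical
  have ht : t ≠ 0 := by rintro rfl; exact absurd hodd (by decide)
  refine ⟨ht, ?_⟩
  have hmul := h.mul
  have hsq : ∀ x : K, x ≠ 0 → (x ^ 2) ^ t = 1 := by
    intro x hx
    rw [← pow_mul, mul_comm]
    have : t * 2 = Fintype.card K - 1 := hmul
    rw [this]
    exact FiniteField.pow_card_sub_one_eq_one x hx
  have hm1 : (-1 : K) ≠ 1 := by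
    intro h0
    have : (1 : K) = 0 := by linear_combination h3 + h0
    exact one_ne_zero this
  have hneg : ∀ x : K, x ≠ 0 → (-(x ^ 2)) ^ t ≠ 1 := by
    intro x hx
    rw [neg_pow, hsq x hx, hodd.neg_one_pow, mul_one]
    exact hm1
  obtain ⟨s, -, hs⟩ := Finset.exists_mem_notMem_of_card_lt_card
    (s := ({0, 1, -1} : Finset K)) (t := Finset.univ) (by
      rw [Finset.card_univ]
      exact lt_of_le_of_lt Finset.card_le_three hcard)
  simp only [Finset.mem_insert, Finset.mem_singleton, not_or] at hs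
  obtain ⟨hs0, hs1, hs2⟩ := hs
  have hx : s⁻¹ - s ≠ 0 := by
    intro h0
    have h1 : (s - 1) * (s + 1) = 0 := by
      have : s * (s⁻¹ - s) = 0 := by rw [h0, mul_zero]
      rw [mul_sub, mul_inv_cancel₀ hs0] at this
      linear_combination -this
    rcases mul_eq_zero.mp h1 with h2 | h2
    · exact hs1 (sub_eq_zero.mp h2)
    · exact hs2 (eq_neg_of_add_eq_zero_left h2)
  have hy : s + s⁻¹ ≠ 0 := by
    intro h0
    have h1 : s ^ 2 = -1 := by
      have : s * (s + s⁻¹) = 0 := by rw [h0, mul_zero]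
      rw [mul_add, mul_inv_cancel₀ hs0] at this
      linear_combination this
    have h2 := hsq s hs0
    rw [h1, hodd.neg_one_pow] at h2
    exact hm1 h2
  have key : 1 + (s⁻¹ - s) ^ 2 = (s + s⁻¹) ^ 2 := by
    have : s * s⁻¹ = 1 := mul_inv_cancel₀ hs0
    linear_combination (-4 : K) * this - h3
  refine ⟨(s⁻¹ - s) ^ 2, -1, hneg _ hx, ?_, ?_, ?_, ?_⟩
  · rw [key]
    intro h0
    have hy2 : (s + s⁻¹) ^ 2 ≠ 0 := pow_ne_zero _ hy
    have h1 : ((s + s⁻¹) ^ 2 - 1) * ((s + s⁻¹) ^ 2 + 1) = 0 := by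
      have e : (s + s⁻¹) ^ 2 * (((s + s⁻¹) ^ 2 - 1) * ((s + s⁻¹) ^ 2 + 1)) = 0 := by
        linear_combination h0
      rcases mul_eq_zero.mp e with e | e
      · exact absurd e hy2
      · exact e
    rcases mul_eq_zero.mp h1 with h2 | h2
    · rw [← key] at h2
      exact (pow_ne_zero 2 hx) (by linear_combination h2)
    · have h4 := hsq _ hy
      rw [eq_neg_of_add_eq_zero_left h2, hodd.neg_one_pow] at h4
      exact hm1 h4
  · rw [hodd.neg_one_pow]; exact hm1
  · have e : (-1 : K) - (s⁻¹ - s) ^ 2 = -((s + s⁻¹) ^ 2) := by rw [← key]; ring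
    rw [e]
    exact hneg _ hy
  · simp [ht]

/-- The family of squares. -/
theorem family (h : Good K q t) (hcard : 2 ≤ Fintype.card K)
    (hex : t ≠ 0 ∧ ∃ v m : K, (-v) ^ t ≠ 1 ∧ (1 + v) ^ q ≠ 1 + v ∧ m ^ t ≠ 1 ∧ (m - v) ^ t ≠ 1 ∧
      (m + 1) ^ t ≠ 1) : M (Fintype.card K) = Fintype.card K - 1 := by
  classical
  obtain ⟨ht, v, m, h1, h2, h3, h4, h5⟩ := hex
  have hfam : HasFamily (Fintype.card K) (Fintype.card {a : K // a ≠ 0}) := by
    apply family_of (fun a : {a : K // a ≠ 0} => (L q t (a : K) : K → K → K))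
    · intro a; exact L_quasigroup h a.2
    · intro a; exact not_group h ht a.2 h1 h2 h3 h4 h5
    · intro a b hab
      exact L_orthogonal h (fun h0 => hab (Subtype.ext h0))
  have hc2 : Fintype.card {a : K // a ≠ 0} = Fintype.card K - 1 := by
    rw [Fintype.card_subtype_compl, Fintype.card_subtype_eq]
  rw [hc2] at hfam
  exact M_eq hcard hfam

theorem good_galois (p e k : ℕ) [hp : Fact p.Prime] (he : e ≠ 0) (hk : k ≠ 0)
    [Fintype (GaloisField p (e * k))] :
    Good (GaloisField p (e * k)) (p ^ e) (((p ^ e) ^ k - 1) / (p ^ e - 1)) ∧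
      Fintype.card (GaloisField p (e * k)) = (p ^ e) ^ k := by
  have hcard : Fintype.card (GaloisField p (e * k)) = (p ^ e) ^ k := by
    rw [← Nat.card_eq_fintype_card, GaloisField.card p (e * k) (Nat.mul_ne_zero he hk), pow_mul]
  refine ⟨⟨?_, ?_, ?_⟩, hcard⟩
  · intro x y
    have := map_add (iterateFrobenius (GaloisField p (e * k)) p e) x y
    simpa [iterateFrobenius_def] using this
  · calc 2 ≤ p := hp.out.two_le
      _ = p ^ 1 := (pow_one p).symm
      _ ≤ p ^ e := Nat.pow_le_pow_right hp.out.pos (Nat.one_le_iff_ne_zero.mpr he)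
  · rw [hcard]
    apply Nat.div_mul_cancel
    have := Nat.sub_dvd_pow_sub_pow (p ^ e) 1 k
    simpa using this

/-- `q ≥ 4`. -/
theorem M_big (p e k : ℕ) (hp : p.Prime) (he : e ≠ 0) (hk : 2 ≤ k) (hq : 4 ≤ p ^ e) :
    M ((p ^ e) ^ k) = (p ^ e) ^ k - 1 := by
  have : Fact p.Prime := ⟨hp⟩
  let _ : Fintype (GaloisField p (e * k)) := Fintype.ofFinite _
  obtain ⟨hg, hc⟩ := good_galois p e k he (by omega)
  have h2 : (p ^ e) ^ 2 ≤ Fintype.card (GaloisField p (e * k)) := by
    rw [hc]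
    exact Nat.pow_le_pow_right (by omega) hk
  rw [← hc]
  exact family hg (by nlinarith) (exists_big hg hq h2)

/-- `q = 3`, odd exponent. -/
theorem M_three (k : ℕ) (hk : 2 ≤ k) (hodd : Odd k) : M (3 ^ k) = 3 ^ k - 1 := by
  have : Fact (Nat.Prime 3) := ⟨Nat.prime_three⟩
  let _ : Fintype (GaloisField 3 (1 * k)) := Fintype.ofFinite _
  obtain ⟨hg, hc⟩ := good_galois 3 1 k one_ne_zero (by omega)
  rw [pow_one] at hg hc
  have h9 : 9 ≤ 3 ^ k := by
    calc 9 = 3 ^ 2 := rfl
      _ ≤ 3 ^ k := Nat.pow_le_pow_right (by norm_num) hk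
  have h3 : (3 : GaloisField 3 (1 * k)) = 0 := by
    have := CharP.cast_eq_zero (GaloisField 3 (1 * k)) 3
    exact_mod_cast this
  have ht : Odd ((3 ^ k - 1) / (3 - 1)) := by
    obtain ⟨r, rfl⟩ := hodd
    have e : 3 ^ (2 * r + 1) = 3 * 9 ^ r := by rw [pow_succ, pow_mul]; ring
    have h8 : 9 ^ r % 8 = 1 := by rw [Nat.pow_mod]; simp
    rw [e, Nat.odd_iff]
    omega
  rw [← hc]
  exact family hg (by omega) (exists_three hg h3 ht (by omega))

end Pool.Agent.Helper478.MolsB
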