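import Mathlib
import Pool.Agent.Helper184.MolsDefs

/-! Complete sets of mutually orthogonal latin squares from a translation plane, read off a
non-translation line; general version. -/

set_option autoImplicit false
set_option linter.unusedSectionVars false

namespace Pool.Agent.Helper478.MolsC

open Pool.Agent.Helper184.Mols

variable {K : Type} [AddCommGroup K] [Finite K]

/-- A spread set containing zero: additive in the first variable, injective in the second one when
the first one is nonzero. -/
structure QF (K : Type) [AddCommGroup K] (mu : K → K → K) : Prop where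
  sub : ∀ x y m, mu (x - y) m = mu x m - mu y m
  inj : ∀ c m m', c ≠ 0 → mu c m = mu c m' → m = m'

open Classical in
/-- The latin square with parameter `a`. -/
noncomputable def L (mu : K → K → K) (a c m : K) : K :=
  if c = 0 then m else Function.invFun (mu c) (mu c m - a)

variable {mu : K → K → K}

theorem mu_zero (h : QF K mu) (m : K) : mu 0 m = 0 := by
  have := h.sub 0 0 m
  simpa using this

theorem mu_inv (h : QF K mu) {c : K} (hc : c ≠ 0) (y : K) : mu c (Function.invFun (mu c) y) = y := by
  have hs : Function.Surjective (mu c) :=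
    Finite.surjective_of_injective (fun m m' => h.inj c m m' hc)
  exact Function.invFun_eq (hs y)

theorem L_zero (a m : K) : L mu a 0 m = m := by simp [L]

theorem L_eq_iff (h : QF K mu) {a c m w : K} (hc : c ≠ 0) :
    L mu a c m = w ↔ mu c m - mu c w = a := by
  unfold L
  rw [if_neg hc]
  constructor
  · intro h1
    rw [← h1, mu_inv h hc]; abel
  · intro h1
    apply h.inj c _ _ hc
    rw [mu_inv h hc, ← h1]; abel

theorem phi_inj (h : QF K mu) {u w y y' : K} (huw : u ≠ w)
    (h1 : mu y u - mu y w = mu y' u - mu y' w) : y = y' := by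
  by_contra hne
  have h2 : mu (y - y') u = mu (y - y') w := by
    rw [h.sub, h.sub]
    have := sub_eq_zero.mpr h1
    rw [← sub_eq_zero, ← this]
    abel
  exact huw (h.inj _ _ _ (sub_ne_zero.mpr hne) h2)

theorem L_quasigroup (h : QF K mu) {a : K} (ha : a ≠ 0) : IsQuasigroup (L mu a) := by
  constructor
  · intro c w
    by_cases hc : c = 0
    · subst hc
      exact ⟨w, L_zero a w, fun y hy => by simpa [L_zero] using hy⟩
    · refine ⟨Function.invFun (mu c) (mu c w + a), ?_, ?_⟩
      · show L mu a c (Function.invFun (mu c) (mu c w + a)) = w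
        rw [L_eq_iff h hc, mu_inv h hc]; abel
      · intro y hy
        rw [L_eq_iff h hc] at hy
        apply h.inj c _ _ hc
        rw [mu_inv h hc, ← hy]; abel
  · intro u w
    by_cases huw : u = w
    · subst huw
      refine ⟨0, L_zero a u, ?_⟩
      intro z hz
      by_contra hz0
      rw [L_eq_iff h hz0, sub_self] at hz
      exact ha hz.symm
    · have hinj : Function.Injective (fun y => mu y u - mu y w) :=
        fun y y' h1 => phi_inj h huw h1
      obtain ⟨y, hy⟩ := (Finite.surjective_of_injective hinj) a
      simp only at hy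
      have hy0 : y ≠ 0 := by
        intro h0; rw [h0, mu_zero h, mu_zero h, sub_zero] at hy; exact ha hy.symm
      refine ⟨y, ?_, ?_⟩
      · show L mu a y u = w
        rw [L_eq_iff h hy0]; exact hy
      · intro z hz
        have hz0 : z ≠ 0 := by
          intro h0; rw [h0, L_zero] at hz; exact huw hz
        rw [L_eq_iff h hz0] at hz
        exact phi_inj h huw (by rw [hz, hy])

theorem L_orthogonal (h : QF K mu) {a b : K} (hab : a ≠ b) :
    Orthogonal (L mu a) (L mu b) := by
  rintro ⟨z, u⟩ ⟨z', u'⟩ h0
  simp only [Prod.mk.injEq] at h0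
  obtain ⟨h1, h2⟩ := h0
  have key : ∀ z u : K, z ≠ 0 → L mu a z u ≠ L mu b z u := by
    intro z u hz h3
    have e1 := (L_eq_iff h (a := b) (m := u) hz).mp h3.symm
    have e2 := (L_eq_iff h (a := a) (m := u) hz).mp rfl
    rw [e1] at e2
    exact hab e2.symm
  by_cases hz : z = 0
  · subst hz
    rw [L_zero] at h1 h2
    have hz' : z' = 0 := by
      by_contra hz'
      exact key z' u' hz' (by rw [← h1, ← h2])
    subst hz'
    rw [L_zero] at h1
    rw [h1]
  · have hz' : z' ≠ 0 := by
      intro hz'
      subst hz'
      rw [L_zero] at h1 h2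
      exact key z u hz (by rw [h1, h2])
    set s := L mu a z' u' with hs
    set r := L mu b z' u' with hr
    have e1 := (L_eq_iff h (a := a) (m := u) (w := s) hz).mp h1
    have e2 := (L_eq_iff h (a := b) (m := u) (w := r) hz).mp h2
    have e3 := (L_eq_iff h (a := a) (m := u') (w := s) hz').mp hs.symm
    have e4 := (L_eq_iff h (a := b) (m := u') (w := r) hz').mp hr.symm
    have hst : s ≠ r := key z' u' hz'
    have h5 : mu z s - mu z r = mu z' s - mu z' r := by
      have e5 : mu z s - mu z r = b - a := by rw [← e1, ← e2]; abel
      have e6 : mu z' s - mu z' r = b - a := by rw [← e3, ← e4]; abel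
      rw [e5, e6]
    have h6 : z = z' := phi_inj h hst h5
    subst h6
    have h8 : mu z u = mu z u' := by
      have : mu z u - mu z s = mu z u' - mu z s := by rw [e1, e3]
      exact sub_left_injective this
    rw [h.inj z _ _ hz h8]

/-- A latin square isotopic to a group, with the identity among its rows, has rows closed under
composition. -/
theorem rows_closed {a : K} (hG : IsotopicToGroup (L mu a)) (c c' : K) :
    ∃ c'' : K, ∀ m : K, L mu a c (L mu a c' m) = L mu a c'' m := by
  obtain ⟨G, hGG, α, β, γ, h⟩ := hG
  have h0 : ∀ m, β m = (α 0)⁻¹ * γ m := by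
    intro m
    have := h 0 m
    rw [L_zero] at this
    rw [this]; group
  refine ⟨α.symm (α c * (α 0)⁻¹ * (α c')), fun m => γ.injective ?_⟩
  rw [h, h0, h, h]
  simp only [Equiv.apply_symm_apply]
  group

/-- In characteristic two the rows are involutions. -/
theorem L_invol (h : QF K mu) (h2 : ∀ x : K, x + x = 0) (a c m : K) :
    L mu a c (L mu a c m) = m := by
  by_cases hc : c = 0
  · subst hc; rw [L_zero, L_zero]
  · have e := (L_eq_iff h (a := a) (m := m) (w := L mu a c m) hc).mp rfl
    rw [L_eq_iff h hc]
    have h5 : mu c (L mu a c m) - mu c m = -(mu c m - mu c (L mu a c m)) := by abel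
    rw [h5, e]
    exact neg_eq_of_add_eq_zero_left (h2 a)

theorem L_comm (h : QF K mu) (h2 : ∀ x : K, x + x = 0) {a : K}
    (hG : IsotopicToGroup (L mu a)) (c c' m : K) :
    L mu a c (L mu a c' m) = L mu a c' (L mu a c m) := by
  obtain ⟨c'', hc''⟩ := rows_closed hG c c'
  have e : ∀ m, L mu a c (L mu a c' (L mu a c (L mu a c' m))) = m := by
    intro m
    rw [hc'', hc'', L_invol h h2]
  have e1 := e m
  have e2 := congrArg (L mu a c) e1
  rw [L_invol h h2] at e2
  have e3 := congrArg (L mu a c') e2
  rw [L_invol h h2] at e3
  exact e3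

/-- The maximum is attained when none of the squares is isotopic to a group. -/
theorem family [Fintype K] (h : QF K mu) (hcard : 2 ≤ Fintype.card K)
    (hng : ∀ a : K, a ≠ 0 → ¬ IsotopicToGroup (L mu a)) :
    M (Fintype.card K) = Fintype.card K - 1 := by
  classical
  have hfam : HasFamily (Fintype.card K) (Fintype.card {a : K // a ≠ 0}) := by
    apply family_of (fun a : {a : K // a ≠ 0} => (L mu (a : K) : K → K → K))
    · intro a; exact L_quasigroup h a.2
    · intro a; exact hng a.1 a.2
    · intro a b hab
      exact L_orthogonal h (fun h0 => hab (Subtype.ext h0))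
  have hc2 : Fintype.card {a : K // a ≠ 0} = Fintype.card K - 1 := by
    rw [Fintype.card_subtype_compl, Fintype.card_subtype_eq]
  rw [hc2] at hfam
  exact M_eq hcard hfam

end Pool.Agent.Helper478.MolsC
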