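import Mathlib
import Pool.Agent.Helper184.MolsDefs
import Pool.Agent.Helper478.MolsC

/-! Knuth's binary semifields: order `2 ^ j`, `j ≥ 5` odd. -/

set_option autoImplicit false
set_option linter.unusedSectionVars false

namespace Pool.Agent.Helper478.MolsD

open Pool.Agent.Helper184.Mols Pool.Agent.Helper478.MolsC

/-- A field of characteristic two with an additive map `f` onto `{0, 1}` like the trace. -/
structure TF (K : Type) [Field K] (f : K → K) : Prop where
  two : (2 : K) = 0
  add : ∀ x y, f (x + y) = f x + f y
  val : ∀ x, f x = 0 ∨ f x = 1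
  sq : ∀ x, f (x ^ 2) = f x
  one : f 1 = 1

variable {K : Type} [Field K] {f : K → K}

/-- The presemifield multiplication. -/
def st (f : K → K) (x y : K) : K := x * y + f x * y ^ 2 + f y * x ^ 2

theorem st_comm (x y : K) : st f x y = st f y x := by unfold st; ring

theorem TF.zero (h : TF K f) : f 0 = 0 := by
  have := h.add 0 0
  simpa using this

theorem TF.add_self (h : TF K f) (x : K) : x + x = 0 := by
  have := h.two; linear_combination x * this

theorem TF.neg (h : TF K f) (x : K) : -x = x := by
  have := h.add_self x; linear_combination -this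

theorem TF.sub (h : TF K f) (x y : K) : f (x - y) = f x - f y := by
  rw [sub_eq_add_neg, h.neg, h.add, sub_eq_add_neg, h.neg]

theorem TF.ff (h : TF K f) (x : K) : f (f x) = f x := by
  rcases h.val x with h1 | h1 <;> rw [h1]
  · exact h.zero
  · exact h.one

theorem st_add_right (h : TF K f) (x y z : K) : st f x (y + z) = st f x y + st f x z := by
  unfold st
  rw [h.add]
  have := h.two
  linear_combination (f x * y * z) * this

theorem st_add_left (h : TF K f) (x y z : K) : st f (x + y) z = st f x z + st f y z := by
  rw [st_comm, st_add_right h, st_comm z x, st_comm z y]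

theorem st_self (h : TF K f) (x : K) : st f x x = x ^ 2 := by
  unfold st
  have := h.two
  linear_combination (f x * x ^ 2) * this

theorem st_ne (h : TF K f) {x y : K} (hx : x ≠ 0) (hy : y ≠ 0) : st f x y ≠ 0 := by
  intro h0
  unfold st at h0
  have hz : x / y ≠ 0 := div_ne_zero hx hy
  have e : x / y + f x + f y * (x / y) ^ 2 = 0 := by
    field_simp
    linear_combination h0
  have hne : x = y → False := by
    intro hxy
    subst hxy
    have h1 : x ^ 2 = 0 := by
      have h2 := h.two
      linear_combination h0 - (f x * x ^ 2) * h2
    exact hx (pow_eq_zero_iff (two_ne_zero) |>.mp h1)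
  have one_case : x / y = 1 → False := by
    intro h1
    exact hne ((div_eq_one_iff_eq hy).mp h1)
  rcases h.val y with h1 | h1
  · rw [h1, zero_mul, add_zero] at e
    rcases h.val x with h2 | h2
    · rw [h2, add_zero] at e; exact hz e
    · rw [h2] at e
      apply one_case
      have := h.two
      linear_combination e - this
  · rw [h1, one_mul] at e
    have e2 := congrArg f e
    rw [h.add, h.add, h.sq, h.ff, h.zero] at e2
    have e3 : f x = 0 := by
      have := h.two
      linear_combination e2 - (f (x / y)) * this
    rw [e3, add_zero] at e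
    have e4 : (x / y) * (1 + x / y) = 0 := by linear_combination e
    rcases mul_eq_zero.mp e4 with h3 | h3
    · exact hz h3
    · apply one_case
      have := h.two
      linear_combination h3 - this

theorem st_inj (h : TF K f) {m x y : K} (hm : m ≠ 0) (hxy : st f x m = st f y m) : x = y := by
  by_contra hne
  have h1 : st f (x - y) m = 0 := by
    rw [sub_eq_add_neg, h.neg, st_add_left h, hxy]
    exact h.add_self _
  exact st_ne h (sub_ne_zero.mpr hne) hm h1

theorem st_zero_left (h : TF K f) (m : K) : st f 0 m = 0 := by
  unfold st; rw [h.zero]; ring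

open Classical in
/-- Division: `nu b m` is the `x` with `x ∘ m = b` (and `0` if `m = 0`). -/
noncomputable def nu (f : K → K) (b m : K) : K :=
  if m = 0 then 0 else Function.invFun (fun x => st f x m) b

variable [Finite K]

theorem nu_st (h : TF K f) {m : K} (hm : m ≠ 0) (b : K) : st f (nu f b m) m = b := by
  have hs : Function.Surjective (fun x => st f x m) :=
    Finite.surjective_of_injective (fun x y hxy => st_inj h hm hxy)
  unfold nu
  rw [if_neg hm]
  exact Function.invFun_eq (hs b)

theorem nu_eq (h : TF K f) {m x b : K} (hm : m ≠ 0) (hx : st f x m = b) : nu f b m = x :=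
  st_inj h hm (by rw [nu_st h hm, hx])

theorem nu_m0 (b : K) : nu f b 0 = 0 := by simp [nu]

theorem qf (h : TF K f) : QF K (nu f) := by
  constructor
  · intro x y m
    by_cases hm : m = 0
    · subst hm; rw [nu_m0, nu_m0, nu_m0, sub_zero]
    · apply nu_eq h hm
      rw [sub_eq_add_neg, h.neg, st_add_left h, nu_st h hm, nu_st h hm, sub_eq_add_neg, h.neg]
  · intro c m m' hc hmm
    by_cases hm : m = 0
    · by_cases hm' : m' = 0
      · rw [hm, hm']
      · exfalso
        rw [hm, nu_m0] at hmm
        have := nu_st h hm' c
        rw [← hmm, st_zero_left h] at this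
        exact hc this.symm
    · by_cases hm' : m' = 0
      · exfalso
        rw [hm', nu_m0] at hmm
        have := nu_st h hm c
        rw [hmm, st_zero_left h] at this
        exact hc this.symm
      · have e1 := nu_st h hm c
        have e2 := nu_st h hm' c
        rw [← hmm] at e2
        have hx : nu f c m ≠ 0 := by
          intro h0
          rw [h0, st_zero_left h] at e1
          exact hc e1.symm
        rw [st_comm] at e1 e2
        exact st_inj h hx (e1.trans e2.symm)

/-- The identity forced by a group. -/
theorem forced (h : TF K f) {a x t y : K} (ha : a ≠ 0) (hx : x ≠ 0) (hxa : x ≠ a)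
    (hG : IsotopicToGroup (L (nu f) a)) (ht : st f a t = st f x x) (hy : st f y x = st f a a) :
    st f y t = st f a x := by
  have hQ := qf h
  have haa := h.add_self
  have hm : a + x ≠ 0 := by
    intro h0
    apply hxa
    have := eq_neg_of_add_eq_zero_right h0
    rw [h.neg] at this
    exact this
  have hw : t + x ≠ 0 := by
    intro h0
    have h1 : t = x := by
      have := eq_neg_of_add_eq_zero_left h0
      rwa [h.neg] at this
    rw [h1] at ht
    exact hxa (st_inj h hx ht).symm
  have hb : st f a (t + x) ≠ 0 := st_ne h ha hw
  have hb' : st f a (a + x) ≠ 0 := st_ne h ha hm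
  -- rows at zero
  have z1 : L (nu f) a (st f a (t + x)) 0 = t + x := by
    rw [L_eq_iff hQ hb, nu_m0, nu_eq h hw rfl, zero_sub, h.neg]
  have z2 : L (nu f) a (st f a (a + x)) 0 = a + x := by
    rw [L_eq_iff hQ hb', nu_m0, nu_eq h hm rfl, zero_sub, h.neg]
  have z3 : L (nu f) a (st f a (t + x)) (a + x) = x := by
    rw [L_eq_iff hQ hb]
    have e1 : nu f (st f a (t + x)) (a + x) = x := by
      apply nu_eq h hm
      rw [st_add_right h, st_add_right h, ht, st_comm x a]; ring
    have e2 : nu f (st f a (t + x)) x = x + a := by
      apply nu_eq h hx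
      rw [st_add_left h, st_add_right h, ht]
    rw [e1, e2]
    have := h.add_self a
    linear_combination -this
  have hc := L_comm hQ haa hG (st f a (t + x)) (st f a (a + x)) 0
  rw [z1, z2, z3] at hc
  have hc' := (L_eq_iff hQ hb').mp hc.symm
  set y1 := nu f (st f a (a + x)) (t + x) with hy1
  have e1 : st f y1 (t + x) = st f a (a + x) := nu_st h hw _
  have e2 : nu f (st f a (a + x)) x = y1 + a := by
    have := h.add_self a
    linear_combination -hc' - this
  have e3 : st f (y1 + a) x = st f a (a + x) := by rw [← e2]; exact nu_st h hx _
  rw [st_add_left h, st_add_right h] at e3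
  have e4 : st f y1 x = st f a a := by linear_combination e3
  have e5 : y1 = y := st_inj h hx (e4.trans hy.symm)
  rw [st_add_right h, st_add_right h, e4, e5] at e1
  linear_combination e1

end Pool.Agent.Helper478.MolsD
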