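import Mathlib
import Pool.Agent.Helper184.MolsDefs
import Pool.Agent.Helper478.MolsC
import Pool.Agent.Helper478.MolsD

/-! Knuth's binary semifields: none of the squares is isotopic to a group. -/

set_option autoImplicit false
set_option linter.unusedSectionVars false

namespace Pool.Agent.Helper478.MolsE

open Pool.Agent.Helper184.Mols Pool.Agent.Helper478.MolsC Pool.Agent.Helper478.MolsD Polynomial

variable {K : Type} [Field K] {f : K → K}

section
variable [Finite K]

theorem case_one (h : TF K f) {a ξ : K} (ha : a ≠ 0) (hfa : f a = 1) (h1 : f ξ = 0)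
    (h2 : f (a * ξ) = 0) (h3 : ξ ≠ 0) (h4 : ξ ^ 3 + ξ + 1 ≠ 0) :
    ¬ IsotopicToGroup (L (nu f) a) := by
  intro hG
  have two := h.two
  obtain ⟨x, hx⟩ : ∃ x, x = a * ξ := ⟨_, rfl⟩
  rw [← hx] at h2
  have hx0 : x ≠ 0 := by rw [hx]; exact mul_ne_zero ha h3
  have hxa : x ≠ a := by
    intro h0
    rw [h0] at h2
    rw [h2] at hfa
    exact zero_ne_one hfa
  obtain ⟨t, ht⟩ : ∃ t, st f a t = st f x x := ⟨nu f (st f x x) a, by
    rw [st_comm]; exact nu_st h ha _⟩
  obtain ⟨y, hy⟩ : ∃ y, st f y x = st f a a := ⟨nu f (st f a a) x, nu_st h hx0 _⟩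
  have hF := forced h ha hx0 hxa hG ht hy
  rw [st_self h] at ht hy
  unfold st at ht hy hF
  rw [hfa, one_mul] at ht hF
  rw [h2, zero_mul, add_zero] at hy hF
  have hθ : f t = 0 := by
    have e : t / a + (t / a) ^ 2 + f t = ξ ^ 2 := by
      have e1 : x / a = ξ := by rw [hx]; field_simp
      rw [← e1]
      field_simp
      linear_combination ht
    have e2 := congrArg f e
    rw [h.add, h.add, h.sq, h.sq, h.ff, h1] at e2
    linear_combination e2 - f (t / a) * two
  rw [hθ, zero_mul, add_zero] at ht hF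
  have fin : x ^ 3 * (a ^ 3 + a ^ 2 * x + x ^ 3) = 0 := by
    rcases h.val y with hη | hη
    · rw [hη, zero_mul, add_zero] at hy hF
      have e : a ^ 2 * t = a * x ^ 2 + x ^ 3 := by linear_combination (-t) * hy + x * hF
      linear_combination a ^ 4 * ht - (a ^ 2 * t + (a * x ^ 2 + x ^ 3) + a ^ 3) * e
        - a * x ^ 5 * two
    · rw [hη, one_mul] at hy hF
      have e : (a ^ 2 - x ^ 2 - a * x) * t = a * x ^ 2 := by
        linear_combination (-t) * hy + x * (hF - ht)
      linear_combination (a ^ 2 - x ^ 2 - a * x) ^ 2 * ht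
        - (a * (a ^ 2 - x ^ 2 - a * x) + (a ^ 2 - x ^ 2 - a * x) * t + a * x ^ 2) * e
        + (a * x ^ 5 + x ^ 6) * two
  rcases mul_eq_zero.mp fin with e | e
  · exact (pow_ne_zero 3 hx0) e
  · rw [hx] at e
    have e2 : a ^ 3 * (ξ ^ 3 + ξ + 1) = 0 := by linear_combination e
    rcases mul_eq_zero.mp e2 with e3 | e3
    · exact (pow_ne_zero 3 ha) e3
    · exact h4 e3

theorem case_zero (h : TF K f) {a x : K} (ha : a ≠ 0) (hfa : f a = 0) (h1 : f x = 0)
    (h2 : f (x ^ 2 / a) = 1) (h7 : (x / a) ^ 7 ≠ 1) :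
    ¬ IsotopicToGroup (L (nu f) a) := by
  intro hG
  have two := h.two
  have hx0 : x ≠ 0 := by
    rintro rfl
    have : (0 : K) ^ 2 / a = 0 := by simp
    rw [this, h.zero] at h2
    exact zero_ne_one h2
  have hxa : x ≠ a := by
    rintro rfl
    apply h7
    rw [div_self ha, one_pow]
  obtain ⟨t, ht⟩ : ∃ t, st f a t = st f x x := ⟨nu f (st f x x) a, by
    rw [st_comm]; exact nu_st h ha _⟩
  obtain ⟨y, hy⟩ : ∃ y, st f y x = st f a a := ⟨nu f (st f a a) x, nu_st h hx0 _⟩
  have hF := forced h ha hx0 hxa hG ht hy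
  rw [st_self h] at ht hy
  unfold st at ht hy hF
  rw [hfa, zero_mul, add_zero] at ht hF
  rw [h1, zero_mul, add_zero] at hy hF
  have hθ : f t = 1 := by
    have e : t = x ^ 2 / a - f t * a := by
      field_simp
      linear_combination ht
    have e2 := congrArg f e
    rw [h.sub, h2] at e2
    have e3 : f (f t * a) = 0 := by
      rcases h.val t with e4 | e4 <;> rw [e4]
      · rw [zero_mul, h.zero]
      · rw [one_mul, hfa]
    rw [e3, sub_zero] at e2
    exact e2
  rw [hθ, one_mul] at ht hF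
  rcases h.val y with hη | hη
  · rw [hη, zero_mul, add_zero] at hy hF
    have e : a ^ 4 * (a - x) = 0 := by
      linear_combination a * x ^ 2 * hF - (a * x * t + a * (y * x + a ^ 2)) * hy - a ^ 2 * x * ht
    rcases mul_eq_zero.mp e with e1 | e1
    · exact (pow_ne_zero 4 ha) e1
    · exact hxa (sub_eq_zero.mp e1).symm
  · rw [hη, one_mul] at hy hF
    have e : x ^ 6 + a * x ^ 5 + a ^ 2 * x ^ 4 + a ^ 3 * x ^ 3 + a ^ 4 * x ^ 2 + a ^ 5 * x
        + a ^ 6 = 0 := by
      linear_combination a ^ 2 * x ^ 2 * hF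
        - (a * x * (a * t) + a ^ 2 * (y * x + (a ^ 2 - x ^ 2))) * hy
        - (a * x * (a ^ 2 - x ^ 2) + x ^ 2 * (a * t + (x ^ 2 - a ^ 2))) * ht
        + (a * x ^ 5 + a ^ 2 * x ^ 4 + a ^ 4 * x ^ 2 + a ^ 5 * x) * two
    apply h7
    have e1 : x ^ 7 = a ^ 7 := by linear_combination (x - a) * e
    rw [div_pow, e1, div_self (pow_ne_zero 7 ha)]

theorem exists_x0 (h : TF K f) {a : K} (ha : a ≠ 0) (hfa : f a = 0) :
    ∃ x, f x = 0 ∧ f (x ^ 2 / a) = 1 := by
  by_contra hcon
  push Not at hcon
  have two := h.two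
  have h0 : ∀ x, f x = 0 → f (x ^ 2 / a) = 0 := by
    intro x hx
    rcases h.val (x ^ 2 / a) with e | e
    · exact e
    · exact absurd e (hcon x hx)
  have h1 : ∀ x, f (x ^ 2 / a) = f (1 / a) * f x := by
    intro x
    rcases h.val x with e | e
    · rw [h0 x e, e, mul_zero]
    · have e1 : f (x + 1) = 0 := by rw [h.add, e, h.one]; exact h.add_self 1
      have e2 := h0 _ e1
      have e3 : (x + 1) ^ 2 / a = x ^ 2 / a + 1 / a := by
        field_simp
        linear_combination x * two
      rw [e3, h.add] at e2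
      rw [e, mul_one]
      have := h.add_self (f (1 / a))
      linear_combination e2 - this
  have hinj : Function.Injective (fun x : K => x ^ 2) := by
    intro x y hxy
    simp only at hxy
    have e : (x - y) ^ 2 = 0 := by linear_combination hxy + (y ^ 2 - x * y) * two
    exact sub_eq_zero.mp (pow_eq_zero_iff (two_ne_zero) |>.mp e)
  have hsurj := Finite.surjective_of_injective hinj
  have h2 : ∀ u, f (u / a) = f (1 / a) * f u := by
    intro u
    obtain ⟨x, hx⟩ := hsurj u
    simp only at hx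
    rw [← hx, h1, h.sq]
  have hl : ∀ u, f (f (1 / a) * u) = f (1 / a) * f u := by
    intro u
    rcases h.val (1 / a) with e | e <;> rw [e]
    · rw [zero_mul, zero_mul, h.zero]
    · rw [one_mul, one_mul]
  by_cases hne : 1 / a + f (1 / a) = 0
  · rcases h.val (1 / a) with e | e
    · rw [e, add_zero] at hne
      exact (one_div_ne_zero ha) hne
    · rw [e] at hne
      have : a = 1 := by
        have e2 : 1 / a = 1 := by linear_combination hne - two
        field_simp at e2
        exact e2.symm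
      rw [this, h.one] at hfa
      exact one_ne_zero hfa
  · have e1 : f ((1 / a + f (1 / a))⁻¹ / a + f (1 / a) * (1 / a + f (1 / a))⁻¹) = 1 := by
      have : (1 / a + f (1 / a))⁻¹ / a + f (1 / a) * (1 / a + f (1 / a))⁻¹ = 1 := by
        have e2 : (1 / a + f (1 / a))⁻¹ / a + f (1 / a) * (1 / a + f (1 / a))⁻¹
          = (1 / a + f (1 / a)) * (1 / a + f (1 / a))⁻¹ := by ring
        rw [e2, mul_inv_cancel₀ hne]
      rw [this, h.one]
    rw [h.add, h2, hl] at e1
    have := h.add_self (f (1 / a) * f (1 / a + f (1 / a))⁻¹)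
    rw [this] at e1
    exact zero_ne_one e1

end

open Classical in
theorem coset (h : TF K f) [Fintype K] (hcard : 32 ≤ Fintype.card K) (g : K → K)
    (gadd : ∀ x y, g (x + y) = g x + g y) (gval : ∀ x, g x = 0 ∨ g x = 1) (x0 : K) :
    ∃ Z : Finset K, 8 ≤ Z.card ∧ ∀ x ∈ Z, f x = f x0 ∧ g x = g x0 := by
  have hmaps : ∀ x ∈ (Finset.univ : Finset K),
      (f x, g x) ∈ (({0, 1} : Finset K) ×ˢ ({0, 1} : Finset K)) := by
    intro x _
    simp only [Finset.mem_product, Finset.mem_insert, Finset.mem_singleton]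
    exact ⟨h.val x, gval x⟩
  have hc2 : ({0, 1} : Finset K).card ≤ 2 := Finset.card_le_two
  have hmul : (({0, 1} : Finset K) ×ˢ ({0, 1} : Finset K)).card * 8
      ≤ (Finset.univ : Finset K).card := by
    rw [Finset.card_product, Finset.card_univ]
    nlinarith
  obtain ⟨y, -, hy⟩ := Finset.exists_le_card_fiber_of_mul_le_card_of_maps_to hmaps
    ⟨(0, 0), by simp⟩ hmul
  set F := Finset.univ.filter (fun x : K => (f x, g x) = y) with hF
  have hne : F.Nonempty := by
    rw [← Finset.card_pos]; omega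
  obtain ⟨x1, hx1⟩ := hne
  refine ⟨F.image (fun x => x + x1 + x0), ?_, ?_⟩
  · rw [Finset.card_image_of_injective]
    · exact hy
    · intro u v huv
      simpa using huv
  · intro x hx
    obtain ⟨u, hu, rfl⟩ := Finset.mem_image.mp hx
    rw [hF, Finset.mem_filter] at hu hx1
    have e1 : (f u, g u) = (f x1, g x1) := hu.2.trans hx1.2.symm
    rw [Prod.mk.injEq] at e1
    constructor
    · rw [h.add, h.add, e1.1, h.add_self, zero_add]
    · rw [gadd, gadd, e1.2, h.add_self, zero_add]

open Classical in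
theorem not_group (h : TF K f) [Fintype K] (hcard : 32 ≤ Fintype.card K) {a : K} (ha : a ≠ 0) :
    ¬ IsotopicToGroup (L (nu f) a) := by
  have two := h.two
  rcases h.val a with hfa | hfa
  · obtain ⟨x0, hx0, hx0'⟩ := exists_x0 h ha hfa
    obtain ⟨Z, hZ, hZ'⟩ := coset h hcard (fun x => f (x ^ 2 / a)) (by
      intro x y
      have e : (x + y) ^ 2 / a = x ^ 2 / a + y ^ 2 / a := by
        field_simp
        linear_combination (x * y) * two
      show f ((x + y) ^ 2 / a) = f (x ^ 2 / a) + f (y ^ 2 / a)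
      rw [e, h.add]) (fun x => h.val _) x0
    have hB : ((nthRoots 7 (1 : K)).toFinset.image (fun x => x * a)).card < Z.card := by
      have e1 := Finset.card_image_le (s := (nthRoots 7 (1 : K)).toFinset) (f := fun x => x * a)
      have e2 : (nthRoots 7 (1 : K)).toFinset.card ≤ 7 :=
        (Multiset.toFinset_card_le _).trans (card_nthRoots 7 1)
      omega
    obtain ⟨x, hx, hxB⟩ := Finset.exists_mem_notMem_of_card_lt_card hB
    obtain ⟨e1, e2⟩ := hZ' x hx
    refine case_zero h ha hfa (e1.trans hx0) (e2.trans hx0') ?_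
    intro h7
    apply hxB
    rw [Finset.mem_image]
    refine ⟨x / a, ?_, by field_simp⟩
    rw [Multiset.mem_toFinset, mem_nthRoots (by norm_num)]
    exact h7
  · obtain ⟨Z, hZ, hZ'⟩ := coset h hcard (fun x => f (a * x)) (by
      intro x y
      show f (a * (x + y)) = f (a * x) + f (a * y)
      rw [mul_add, h.add]) (fun x => h.val _) 0
    set P : K[X] := X ^ 3 + X + 1 with hP
    have hdeg : P.natDegree = 3 := by rw [hP]; compute_degree!
    have hP0 : P ≠ 0 := by
      intro h0
      rw [h0, natDegree_zero] at hdeg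
      omega
    have hB : (insert (0 : K) P.roots.toFinset).card < Z.card := by
      have e1 := Finset.card_insert_le (0 : K) P.roots.toFinset
      have e2 := Multiset.toFinset_card_le P.roots
      have e3 := card_roots' P
      omega
    obtain ⟨x, hx, hxB⟩ := Finset.exists_mem_notMem_of_card_lt_card hB
    obtain ⟨e1, e2⟩ := hZ' x hx
    rw [Finset.mem_insert, not_or] at hxB
    refine case_one h ha hfa (ξ := x) (by rw [e1, h.zero]) ?_ hxB.1 ?_
    · have : f (a * x) = f (a * 0) := e2
      rw [this, mul_zero, h.zero]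
    · intro h0
      apply hxB.2
      rw [Multiset.mem_toFinset, mem_roots hP0]
      simp only [hP, IsRoot.def, eval_add, eval_pow, eval_X, eval_one]
      exact h0

theorem tf_galois (j : ℕ) (hj : Odd j) (K : Type) [Field K] [CharP K 2] [Fintype K]
    (hK : Fintype.card K = 2 ^ j) : TF K (fun x => ∑ i ∈ Finset.range j, x ^ (2 ^ i)) := by
  have two : (2 : K) = 0 := by exact_mod_cast CharP.cast_eq_zero K 2
  have hshift : ∀ x : K, ∑ i ∈ Finset.range j, x ^ (2 ^ (i + 1))
      = ∑ i ∈ Finset.range j, x ^ (2 ^ i) := by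
    intro x
    have e1 := Finset.sum_range_succ (fun i => x ^ (2 ^ i)) j
    have e2 := Finset.sum_range_succ' (fun i => x ^ (2 ^ i)) j
    have e3 : x ^ (2 ^ j) = x := by rw [← hK]; exact FiniteField.pow_card x
    rw [e1, e3, pow_zero, pow_one] at e2
    exact (add_right_cancel e2).symm
  have hsq : ∀ x : K, (∑ i ∈ Finset.range j, x ^ (2 ^ i)) ^ 2
      = ∑ i ∈ Finset.range j, x ^ (2 ^ i) := by
    intro x
    have e := map_sum (frobenius K 2) (fun i => x ^ (2 ^ i)) (Finset.range j)
    simp only [frobenius_def] at e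
    rw [e, ← hshift x]
    exact Finset.sum_congr rfl (fun i _ => by rw [← pow_mul, pow_succ])
  refine ⟨two, ?_, ?_, ?_, ?_⟩
  · intro x y
    rw [← Finset.sum_add_distrib]
    exact Finset.sum_congr rfl (fun i _ => add_pow_char_pow x y 2 i)
  · intro x
    have e := hsq x
    have e2 : (∑ i ∈ Finset.range j, x ^ (2 ^ i)) * ((∑ i ∈ Finset.range j, x ^ (2 ^ i)) - 1)
        = 0 := by linear_combination e
    rcases mul_eq_zero.mp e2 with e3 | e3
    · exact Or.inl e3
    · exact Or.inr (sub_eq_zero.mp e3)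
  · intro x
    rw [← hshift x]
    exact Finset.sum_congr rfl (fun i _ => by rw [← pow_mul, pow_succ, mul_comm])
  · simp only [one_pow, Finset.sum_const, Finset.card_range, nsmul_eq_mul, mul_one]
    obtain ⟨r, rfl⟩ := hj
    push_cast
    linear_combination (r : K) * two

/-- `M (2 ^ j) = 2 ^ j - 1` for odd `j ≥ 5`. -/
theorem M_two (j : ℕ) (hj : Odd j) (h5 : 5 ≤ j) : M (2 ^ j) = 2 ^ j - 1 := by
  have : Fact (Nat.Prime 2) := ⟨Nat.prime_two⟩
  let _ : Fintype (GaloisField 2 j) := Fintype.ofFinite _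
  have hc : Fintype.card (GaloisField 2 j) = 2 ^ j := by
    rw [← Nat.card_eq_fintype_card, GaloisField.card 2 j (by omega)]
  have h := tf_galois j hj (GaloisField 2 j) hc
  have h32 : 32 ≤ Fintype.card (GaloisField 2 j) := by
    rw [hc]
    calc 32 = 2 ^ 5 := by norm_num
      _ ≤ 2 ^ j := Nat.pow_le_pow_right (by norm_num) h5
  rw [← hc]
  exact family (qf h) (by omega) (fun a ha => not_group h h32 ha)

end Pool.Agent.Helper478.MolsE
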