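import Mathlib
import Pool.Agent.Helper184.MolsDefs
import Pool.Agent.Helper184.MolsDickson
import Pool.Agent.Helper478.MolsB
import Pool.Agent.Helper478.MolsE

/-! All prime powers `p ^ j`, `j ≥ 2`, other than `4` and `8`. -/

set_option autoImplicit false

namespace Pool.Agent.Helper478.MolsF

open Pool.Agent.Helper184.Mols

theorem M_prime_pow (p j : ℕ) (hp : p.Prime) (hj : 2 ≤ j) (h4 : p ^ j ≠ 4) (h8 : p ^ j ≠ 8) :
    M (p ^ j) = p ^ j - 1 := by
  have hp2 := hp.two_le
  by_cases h5 : 4 ≤ p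
  · have := MolsB.M_big p 1 j hp one_ne_zero hj (by simpa using h5)
    simpa using this
  have h6 : p = 2 ∨ p = 3 := by omega
  rcases h6 with rfl | rfl
  · have hj2 : j ≠ 2 := by rintro rfl; exact h4 rfl
    have hj3 : j ≠ 3 := by rintro rfl; exact h8 rfl
    rcases Nat.even_or_odd' j with ⟨b, rfl | rfl⟩
    · rw [mul_comm, pow_mul]
      exact MolsB.M_big 2 b 2 hp (by omega) le_rfl (by
        calc 4 = 2 ^ 2 := rfl
          _ ≤ 2 ^ b := Nat.pow_le_pow_right (by norm_num) (by omega))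
    · exact MolsE.M_two (2 * b + 1) ⟨b, rfl⟩ (by omega)
  · rcases Nat.even_or_odd' j with ⟨b, rfl | rfl⟩
    · by_cases hb : b = 1
      · subst hb
        exact M_sq 3 Nat.prime_three.isPrimePow (by decide)
      · rw [mul_comm, pow_mul]
        exact MolsB.M_big 3 b 2 hp (by omega) le_rfl (by
          calc 4 ≤ 3 ^ 2 := by norm_num
            _ ≤ 3 ^ b := Nat.pow_le_pow_right (by norm_num) (by omega))
    · exact MolsB.M_three (2 * b + 1) hj ⟨b, rfl⟩

end Pool.Agent.Helper478.MolsF
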