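import Mathlib
import Pool.Agent.Helper184.MolsDefs

/-! Direct products of latin squares. -/

set_option autoImplicit false

namespace Pool.Agent.Helper478.MolsG

open Pool.Agent.Helper184.Mols

/-- There are `s` mutually orthogonal quasigroups (latin squares) of order `n`. -/
def HasMols (n s : ℕ) : Prop :=
  ∃ Q : Fin s → Fin n → Fin n → Fin n,
    (∀ i, IsQuasigroup (Q i)) ∧ (∀ i j, i ≠ j → Orthogonal (Q i) (Q j))

/-- The direct product of two operations. -/
def prod {S T : Type} (f : S → S → S) (g : T → T → T) : S × T → S × T → S × T :=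
  fun x y => (f x.1 y.1, g x.2 y.2)

theorem prod_quasi {S T : Type} {f : S → S → S} {g : T → T → T} (hf : IsQuasigroup f)
    (hg : IsQuasigroup g) : IsQuasigroup (prod f g) := by
  constructor
  · rintro ⟨a, a'⟩ ⟨b, b'⟩
    obtain ⟨x, hx, hx'⟩ := hf.1 a b
    obtain ⟨y, hy, hy'⟩ := hg.1 a' b'
    refine ⟨(x, y), Prod.ext hx hy, ?_⟩
    rintro ⟨u, v⟩ huv
    have e := Prod.mk.inj huv
    exact Prod.ext (hx' u e.1) (hy' v e.2)
  · rintro ⟨a, a'⟩ ⟨b, b'⟩
    obtain ⟨x, hx, hx'⟩ := hf.2 a b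
    obtain ⟨y, hy, hy'⟩ := hg.2 a' b'
    refine ⟨(x, y), Prod.ext hx hy, ?_⟩
    rintro ⟨u, v⟩ huv
    have e := Prod.mk.inj huv
    exact Prod.ext (hx' u e.1) (hy' v e.2)

theorem prod_orth {S T : Type} {f f' : S → S → S} {g g' : T → T → T} (hf : Orthogonal f f')
    (hg : Orthogonal g g') : Orthogonal (prod f g) (prod f' g') := by
  rintro ⟨⟨x, x'⟩, ⟨y, y'⟩⟩ ⟨⟨u, u'⟩, ⟨v, v'⟩⟩ h
  simp only [prod, Prod.mk.injEq] at h
  obtain ⟨⟨h1, h2⟩, h3, h4⟩ := h
  have e1 : ((x, y) : S × S) = (u, v) := hf (by simp only [Prod.mk.injEq]; exact ⟨h1, h3⟩)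
  have e2 : ((x', y') : T × T) = (u', v') := hg (by simp only [Prod.mk.injEq]; exact ⟨h2, h4⟩)
  simp only [Prod.mk.injEq] at e1 e2 ⊢
  exact ⟨⟨e1.1, e2.1⟩, e1.2, e2.2⟩

/-- A factor of a direct product isotopic to a group is isotopic to a group. -/
theorem prod_group {S T : Type} [Nonempty S] [Nonempty T] {f : S → S → S} {g : T → T → T}
    (hf : IsQuasigroup f) (h : IsotopicToGroup (prod f g)) : IsotopicToGroup f := by
  obtain ⟨G, hGG, α, β, γ, hαβ⟩ := h
  obtain ⟨x0⟩ := (inferInstance : Nonempty S)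
  obtain ⟨r⟩ := (inferInstance : Nonempty T)
  set A : S → G := fun x => (α (x0, r))⁻¹ * α (x, r) with hA
  set B : S → G := fun y => β (y, r) * (β (x0, r))⁻¹ with hB
  set C : S → G := fun z => (α (x0, r))⁻¹ * γ (z, g r r) * (β (x0, r))⁻¹ with hC
  have hABC : ∀ x y, C (f x y) = A x * B y := by
    intro x y
    have := hαβ (x, r) (y, r)
    simp only [prod] at this
    rw [hA, hB, hC]
    simp only
    rw [this]
    group
  have hA0 : A x0 = 1 := by rw [hA]; simp
  have hB0 : B x0 = 1 := by rw [hB]; simp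
  have hAC : ∀ x, A x = C (f x x0) := by intro x; rw [hABC, hB0, mul_one]
  have hBC : ∀ y, B y = C (f x0 y) := by intro y; rw [hABC, hA0, one_mul]
  have hCA : ∀ z, ∃ x, A x = C z := by
    intro z
    obtain ⟨x, hx, -⟩ := hf.2 x0 z
    exact ⟨x, by rw [hAC, hx]⟩
  have hCB : ∀ z, ∃ y, B y = C z := by
    intro z
    obtain ⟨y, hy, -⟩ := hf.1 x0 z
    exact ⟨y, by rw [hBC, hy]⟩
  let H : Subgroup G :=
    { carrier := Set.range C
      mul_mem' := by
        rintro _ _ ⟨z, rfl⟩ ⟨w, rfl⟩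
        obtain ⟨x, hx⟩ := hCA z
        obtain ⟨y, hy⟩ := hCB w
        exact ⟨f x y, by rw [hABC, hx, hy]⟩
      one_mem' := ⟨f x0 x0, by rw [hABC, hA0, hB0, mul_one]⟩
      inv_mem' := by
        rintro _ ⟨z, rfl⟩
        obtain ⟨x, hx⟩ := hCA z
        obtain ⟨y, hy, -⟩ := hf.1 x (f x0 x0)
        refine ⟨f x0 y, ?_⟩
        rw [← hBC, ← hx]
        have e := hABC x y
        rw [hy, hABC, hA0, hB0, mul_one] at e
        exact (inv_eq_of_mul_eq_one_right e.symm).symm }
  have mA : ∀ x, A x ∈ H := fun x => ⟨f x x0, (hAC x).symm⟩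
  have mB : ∀ x, B x ∈ H := fun x => ⟨f x0 x, (hBC x).symm⟩
  have mC : ∀ x, C x ∈ H := fun x => ⟨x, rfl⟩
  have iA : Function.Injective A := by
    intro x y hxy
    rw [hA] at hxy
    simp only [mul_right_inj, EmbeddingLike.apply_eq_iff_eq, Prod.mk.injEq] at hxy
    exact hxy.1
  have iB : Function.Injective B := by
    intro x y hxy
    rw [hB] at hxy
    simp only [mul_left_inj, EmbeddingLike.apply_eq_iff_eq, Prod.mk.injEq] at hxy
    exact hxy.1
  have iC : Function.Injective C := by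
    intro x y hxy
    rw [hC] at hxy
    simp only [mul_left_inj, mul_right_inj, EmbeddingLike.apply_eq_iff_eq, Prod.mk.injEq] at hxy
    exact hxy.1
  refine ⟨H, inferInstance,
    Equiv.ofBijective (fun x => (⟨A x, mA x⟩ : H)) ⟨?_, ?_⟩,
    Equiv.ofBijective (fun x => (⟨B x, mB x⟩ : H)) ⟨?_, ?_⟩,
    Equiv.ofBijective (fun x => (⟨C x, mC x⟩ : H)) ⟨?_, ?_⟩, ?_⟩
  · intro x y hxy
    exact iA (congrArg Subtype.val hxy)
  · rintro ⟨_, z, rfl⟩
    obtain ⟨x, hx⟩ := hCA z
    exact ⟨x, Subtype.ext hx⟩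
  · intro x y hxy
    exact iB (congrArg Subtype.val hxy)
  · rintro ⟨_, z, rfl⟩
    obtain ⟨x, hx⟩ := hCB z
    exact ⟨x, Subtype.ext hx⟩
  · intro x y hxy
    exact iC (congrArg Subtype.val hxy)
  · rintro ⟨_, z, rfl⟩
    exact ⟨z, rfl⟩
  · intro x y
    exact Subtype.ext (hABC x y)

theorem mols_of {S I : Type} [Fintype S] [Fintype I] (Q : I → S → S → S)
    (hQ : ∀ i, IsQuasigroup (Q i)) (hO : ∀ i j, i ≠ j → Orthogonal (Q i) (Q j)) :
    HasMols (Fintype.card S) (Fintype.card I) := by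
  let e : S ≃ Fin (Fintype.card S) := Fintype.equivFin S
  let f : I ≃ Fin (Fintype.card I) := Fintype.equivFin I
  refine ⟨fun i x y => e (Q (f.symm i) (e.symm x) (e.symm y)), ?_, ?_⟩
  · intro i
    constructor
    · intro a b
      obtain ⟨x, hx, hx'⟩ := (hQ (f.symm i)).1 (e.symm a) (e.symm b)
      refine ⟨e x, ?_, ?_⟩
      · simp only [Equiv.symm_apply_apply]; rw [hx]; simp
      · intro y hy
        have := hx' (e.symm y) (by simp only at hy ⊢; rw [← hy]; simp)
        rw [← this]; simp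
    · intro a b
      obtain ⟨x, hx, hx'⟩ := (hQ (f.symm i)).2 (e.symm a) (e.symm b)
      refine ⟨e x, ?_, ?_⟩
      · simp only [Equiv.symm_apply_apply]; rw [hx]; simp
      · intro y hy
        have := hx' (e.symm y) (by simp only at hy ⊢; rw [← hy]; simp)
        rw [← this]; simp
  · intro i j hij
    have h := hO (f.symm i) (f.symm j) (fun h => hij (f.symm.injective h))
    rintro ⟨x, y⟩ ⟨x', y'⟩ hxy
    simp only [Prod.mk.injEq, EmbeddingLike.apply_eq_iff_eq] at hxy
    have h2 : ((e.symm x, e.symm y) : S × S) = (e.symm x', e.symm y') := by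
      apply h
      simp only [Prod.mk.injEq]
      exact hxy
    simp only [Prod.mk.injEq, EmbeddingLike.apply_eq_iff_eq] at h2
    exact Prod.ext h2.1 h2.2

theorem mols_mono {n s s' : ℕ} (h : HasMols n s) (hs : s' ≤ s) : HasMols n s' := by
  obtain ⟨Q, h1, h2⟩ := h
  refine ⟨fun i => Q (Fin.castLE hs i), fun i => h1 _, fun i j hij => h2 _ _ ?_⟩
  intro h0
  exact hij (Fin.castLE_injective hs h0)

theorem family_mono {n s s' : ℕ} (h : HasFamily n s) (hs : s' ≤ s) : HasFamily n s' := by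
  obtain ⟨Q, h1, h3, h2⟩ := h
  refine ⟨fun i => Q (Fin.castLE hs i), fun i => h1 _, fun i => h3 _, fun i j hij => h2 _ _ ?_⟩
  intro h0
  exact hij (Fin.castLE_injective hs h0)

theorem mols_mul {m n s : ℕ} (hm : HasMols m s) (hn : HasMols n s) : HasMols (m * n) s := by
  obtain ⟨Q, h1, h2⟩ := hm
  obtain ⟨R, k1, k2⟩ := hn
  have := mols_of (fun i => prod (Q i) (R i)) (fun i => prod_quasi (h1 i) (k1 i))
    (fun i j hij => prod_orth (h2 i j hij) (k2 i j hij))
  simpa using this

theorem family_mul {m n s : ℕ} (hm0 : m ≠ 0) (hn0 : n ≠ 0) (hm : HasFamily m s)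
    (hn : HasMols n s) : HasFamily (m * n) s := by
  obtain ⟨Q, h1, h3, h2⟩ := hm
  obtain ⟨R, k1, k2⟩ := hn
  have : Nonempty (Fin m) := ⟨⟨0, Nat.pos_of_ne_zero hm0⟩⟩
  have : Nonempty (Fin n) := ⟨⟨0, Nat.pos_of_ne_zero hn0⟩⟩
  have := family_of (fun i => prod (Q i) (R i)) (fun i => prod_quasi (h1 i) (k1 i))
    (fun i hi => h3 i (prod_group (h1 i) hi))
    (fun i j hij => prod_orth (h2 i j hij) (k2 i j hij))
  simpa using this

/-- `M (m n) ≥ min (M m) s` whenever there are `s` MOLS of order `n`. -/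
theorem M_mul {m n s : ℕ} (hm : 2 ≤ m) (hn : n ≠ 0) (hs : HasMols n s) :
    min (M m) s ≤ M (m * n) := by
  have h1 := family_mono (M_isGreatest hm).1 (min_le_left (M m) s)
  have h2 := mols_mono hs (min_le_right (M m) s)
  have h3 := family_mul (by omega) hn h1 h2
  have : 2 ≤ m * n := by
    have := Nat.pos_of_ne_zero hn
    nlinarith
  exact (M_isGreatest this).2 h3

/-- Prime powers. -/
theorem mols_prime_pow (p k : ℕ) (hp : p.Prime) (hk : 0 < k) : HasMols (p ^ k) (p ^ k - 1) := by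
  have : Fact p.Prime := ⟨hp⟩
  let K := GaloisField p k
  let _ : Fintype K := Fintype.ofFinite K
  classical
  have hK : Fintype.card K = p ^ k := by
    rw [← Nat.card_eq_fintype_card]; exact GaloisField.card p k (by omega)
  have h := mols_of (fun (a : {a : K // a ≠ 0}) (x y : K) => a.1 * x + y) (by
    intro a
    constructor
    · intro x b
      exact ⟨b - a.1 * x, by simp, fun y hy => by rw [← hy]; ring⟩
    · intro x b
      refine ⟨(b - x) / a.1, ?_, ?_⟩
      · simp only
        rw [mul_div_cancel₀ _ a.2]; ring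
      · intro y hy
        simp only at hy
        rw [← hy]
        have := a.2
        field_simp
        ring) (by
    intro a b hab
    rintro ⟨x, y⟩ ⟨u, v⟩ h0
    simp only [Prod.mk.injEq] at h0
    have e : (a.1 - b.1) * (x - u) = 0 := by linear_combination h0.1 - h0.2
    have hab' : a.1 - b.1 ≠ 0 := fun h1 => hab (Subtype.ext (sub_eq_zero.mp h1))
    have e2 : x = u := by
      rcases mul_eq_zero.mp e with h1 | h1
      · exact absurd h1 hab'
      · exact sub_eq_zero.mp h1
    subst e2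
    have e3 := h0.1
    simp only [add_right_inj] at e3
    rw [e3])
  have hc2 : Fintype.card {a : K // a ≠ 0} = p ^ k - 1 := by
    rw [Fintype.card_subtype_compl, hK, Fintype.card_subtype_eq]
  rw [hK, hc2] at h
  exact h

theorem mols_one (s : ℕ) : HasMols 1 s := by
  refine ⟨fun _ _ _ => 0, fun i => ⟨fun a b => ⟨0, Subsingleton.elim _ _, fun y _ =>
    Subsingleton.elim _ _⟩, fun a b => ⟨0, Subsingleton.elim _ _, fun y _ =>
    Subsingleton.elim _ _⟩⟩, fun i j _ x y _ => Subsingleton.elim _ _⟩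

/-- MacNeish's bound. -/
theorem macneish (n : ℕ) : n ≠ 0 → ∀ s : ℕ,
    (∀ p : ℕ, p.Prime → p ∣ n → s + 1 ≤ p ^ (n.factorization p)) → HasMols n s := by
  induction n using Nat.recOnPosPrimePosCoprime with
  | prime_pow p k hp hk =>
    intro _ s hs
    have h1 := hs p hp (dvd_pow_self p (by omega))
    rw [hp.factorization_pow, Finsupp.single_eq_same] at h1
    exact mols_mono (mols_prime_pow p k hp hk) (by omega)
  | zero => intro h; exact absurd rfl h
  | one => intro _ s _; exact mols_one s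
  | coprime a b ha hb hab iha ihb =>
    intro _ s hs
    have ha0 : a ≠ 0 := by omega
    have hb0 : b ≠ 0 := by omega
    have hf : ∀ p, (a * b).factorization p = a.factorization p + b.factorization p := by
      intro p
      rw [Nat.factorization_mul ha0 hb0]; rfl
    apply mols_mul
    · apply iha ha0
      intro p hp hpa
      have h1 := hs p hp (Dvd.dvd.mul_right hpa b)
      have h2 : ¬ p ∣ b := fun h3 => by
        have := Nat.dvd_gcd hpa h3
        rw [hab] at this
        exact hp.one_lt.ne' (Nat.dvd_one.mp this)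
      rw [hf, Nat.factorization_eq_zero_of_not_dvd h2, add_zero] at h1
      exact h1
    · apply ihb hb0
      intro p hp hpb
      have h1 := hs p hp (Dvd.dvd.mul_left hpb a)
      have h2 : ¬ p ∣ a := fun h3 => by
        have := Nat.dvd_gcd h3 hpb
        rw [hab] at this
        exact hp.one_lt.ne' (Nat.dvd_one.mp this)
      rw [hf, Nat.factorization_eq_zero_of_not_dvd h2, zero_add] at h1
      exact h1

end Pool.Agent.Helper478.MolsG
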