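import Mathlib
import Pool.Agent.Helper184.MolsDefs
import Pool.Agent.Helper478.MolsF
import Pool.Agent.Helper478.MolsG

/-! Twisted products: mutually orthogonal squares of order `m n`, none isotopic to a group, from
arbitrary mutually orthogonal squares of orders `m ≥ 3` and `n ≥ 2`. -/

set_option autoImplicit false

namespace Pool.Agent.Helper478.MolsH

open Pool.Agent.Helper184.Mols Pool.Agent.Helper478.MolsG

/-- Product with cell-dependent second component. -/
def gp {S T : Type} (f : S → S → S) (h : S → S → T → T → T) : S × T → S × T → S × T :=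
  fun x y => (f x.1 y.1, h x.1 y.1 x.2 y.2)

theorem gp_quasi {S T : Type} {f : S → S → S} {h : S → S → T → T → T} (hf : IsQuasigroup f)
    (hh : ∀ a b, IsQuasigroup (h a b)) : IsQuasigroup (gp f h) := by
  constructor
  · rintro ⟨a, a'⟩ ⟨b, b'⟩
    obtain ⟨x, hx, hx'⟩ := hf.1 a b
    obtain ⟨y, hy, hy'⟩ := (hh a x).1 a' b'
    refine ⟨(x, y), Prod.ext hx hy, ?_⟩
    rintro ⟨u, v⟩ huv
    have e := Prod.mk.inj huv
    have e1 := hx' u e.1
    subst e1
    exact Prod.ext rfl (hy' v e.2)
  · rintro ⟨a, a'⟩ ⟨b, b'⟩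
    obtain ⟨x, hx, hx'⟩ := hf.2 a b
    obtain ⟨y, hy, hy'⟩ := (hh x a).2 a' b'
    refine ⟨(x, y), Prod.ext hx hy, ?_⟩
    rintro ⟨u, v⟩ huv
    have e := Prod.mk.inj huv
    have e1 := hx' u e.1
    subst e1
    exact Prod.ext rfl (hy' v e.2)

theorem gp_orth {S T : Type} {f f' : S → S → S} {h h' : S → S → T → T → T}
    (hf : Orthogonal f f') (hh : ∀ a b, Orthogonal (h a b) (h' a b)) :
    Orthogonal (gp f h) (gp f' h') := by
  rintro ⟨⟨x, x'⟩, ⟨y, y'⟩⟩ ⟨⟨u, u'⟩, ⟨v, v'⟩⟩ h0
  simp only [gp, Prod.mk.injEq] at h0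
  obtain ⟨⟨h1, h2⟩, h3, h4⟩ := h0
  have e1 : ((x, y) : S × S) = (u, v) := hf (by simp only [Prod.mk.injEq]; exact ⟨h1, h3⟩)
  simp only [Prod.mk.injEq] at e1
  obtain ⟨rfl, rfl⟩ := e1
  have e2 : ((x', y') : T × T) = (u', v') :=
    hh x y (by simp only [Prod.mk.injEq]; exact ⟨h2, h4⟩)
  simp only [Prod.mk.injEq] at e2 ⊢
  exact ⟨⟨trivial, e2.1⟩, trivial, e2.2⟩

/-- The quadrangle criterion. -/
theorem quad {S : Type} {f : S → S → S} (hf : IsotopicToGroup f) {x x' y y' u u' v v' : S}
    (h1 : f x y = f u v) (h2 : f x y' = f u v') (h3 : f x' y = f u' v) :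
    f x' y' = f u' v' := by
  obtain ⟨G, hGG, α, β, γ, h⟩ := hf
  have e1 : α x * β y = α u * β v := by rw [← h, ← h, h1]
  have e2 : α x * β y' = α u * β v' := by rw [← h, ← h, h2]
  have e3 : α x' * β y = α u' * β v := by rw [← h, ← h, h3]
  apply γ.injective
  rw [h, h]
  have e4 : α x' * β y' = (α x' * β y) * (α x * β y)⁻¹ * (α x * β y') := by group
  rw [e4, e1, e2, e3]
  group

open Classical in
/-- The second component: `τ ∘ g` in the cell `(a, b)`, `g` elsewhere. -/
noncomputable def cell {S T : Type} (a b : S) (τ : T ≃ T) (g : T → T → T) :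
    S → S → T → T → T :=
  fun x y u v => if x = a ∧ y = b then τ (g u v) else g u v

theorem cell_quasi {S T : Type} (a b : S) (τ : T ≃ T) {g : T → T → T} (hg : IsQuasigroup g)
    (x y : S) : IsQuasigroup (cell a b τ g x y) := by
  by_cases h : x = a ∧ y = b
  · constructor
    · intro u w
      obtain ⟨v, hv, hv'⟩ := hg.1 u (τ.symm w)
      refine ⟨v, ?_, ?_⟩
      · simp only [cell, if_pos h]
        rw [hv, Equiv.apply_symm_apply]
      · intro v' h'
        simp only [cell, if_pos h] at h'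
        exact hv' v' (by rw [← h', Equiv.symm_apply_apply])
    · intro u w
      obtain ⟨v, hv, hv'⟩ := hg.2 u (τ.symm w)
      refine ⟨v, ?_, ?_⟩
      · simp only [cell, if_pos h]
        rw [hv, Equiv.apply_symm_apply]
      · intro v' h'
        simp only [cell, if_pos h] at h'
        exact hv' v' (by rw [← h', Equiv.symm_apply_apply])
  · have e : cell a b τ g x y = g := by
      funext u v
      simp only [cell, if_neg h]
    rw [e]
    exact hg

theorem cell_orth {S T : Type} (a b : S) (τ τ' : T ≃ T) {g g' : T → T → T}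
    (hg : Orthogonal g g') (x y : S) :
    Orthogonal (cell a b τ g x y) (cell a b τ' g' x y) := by
  by_cases h : x = a ∧ y = b
  · rintro ⟨u, v⟩ ⟨u', v'⟩ h0
    simp only [cell, if_pos h, Prod.mk.injEq, EmbeddingLike.apply_eq_iff_eq] at h0
    exact hg (by simp only [Prod.mk.injEq]; exact h0)
  · have e : cell a b τ g x y = g := by
      funext u v
      simp only [cell, if_neg h]
    have e' : cell a b τ' g' x y = g' := by
      funext u v
      simp only [cell, if_neg h]
    rw [e, e']
    exact hg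

/-- Twisting one cell destroys the group property. -/
theorem twist_not {S T : Type} {f : S → S → S} {g : T → T → T} (hf : IsQuasigroup f)
    (hG : IsotopicToGroup f) (hg : IsQuasigroup g) {a b x1 y1 : S} (hx : x1 ≠ a) (hy : y1 ≠ b)
    (hxy : f x1 y1 ≠ f a b) (τ : T ≃ T) {z : T} (hz : τ z ≠ z) :
    ¬ IsotopicToGroup (gp f (cell a b τ g)) := by
  intro hP
  obtain ⟨v1, hv1, -⟩ := hf.1 x1 (f a y1)
  obtain ⟨u1, hu1, -⟩ := hf.2 v1 (f x1 y1)
  obtain ⟨v2, hv2, -⟩ := hf.1 u1 (f x1 b)
  have hq : f a b = f x1 v2 := quad hG hu1.symm hv2.symm hv1.symm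
  have hvb : v2 ≠ b := by
    rintro rfl
    exact hx ((hf.2 v2 (f a v2)).unique hq.symm rfl)
  obtain ⟨t, ht, -⟩ := hg.1 z z
  have hP' := quad hP (x := (x1, z)) (x' := (a, z)) (y := (y1, t)) (y' := (b, t))
    (u := (u1, z)) (u' := (x1, z)) (v := (v1, t)) (v' := (v2, t)) ?_ ?_ ?_
  · simp only [gp, cell, Prod.mk.injEq] at hP'
    have h2 := hP'.2
    rw [if_pos ⟨trivial, trivial⟩, if_neg (fun h => hx h.1), ht] at h2
    exact hz h2
  · simp only [gp, cell, Prod.mk.injEq]
    refine ⟨hu1.symm, ?_⟩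
    rw [if_neg (fun h => hx h.1), if_neg]
    rintro ⟨h1, h2⟩
    apply hxy
    rw [← hu1, h1, h2]
  · simp only [gp, cell, Prod.mk.injEq]
    refine ⟨hv2.symm, ?_⟩
    rw [if_neg (fun h => hx h.1), if_neg (fun h => hvb h.2)]
  · simp only [gp, cell, Prod.mk.injEq]
    refine ⟨hv1.symm, ?_⟩
    rw [if_neg (fun h => hy h.2), if_neg (fun h => hx h.1)]

theorem family_twist {m n s : ℕ} (hm : 3 ≤ m) (hn : 2 ≤ n) (h1 : HasMols m s)
    (h2 : HasMols n s) : HasFamily (m * n) s := by
  classical
  obtain ⟨Q, hQ, hQo⟩ := h1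
  obtain ⟨R, hR, hRo⟩ := h2
  have : Nonempty (Fin m) := ⟨⟨0, by omega⟩⟩
  have : Nonempty (Fin n) := ⟨⟨0, by omega⟩⟩
  let a : Fin m := ⟨0, by omega⟩
  let x1 : Fin m := ⟨1, by omega⟩
  let x2 : Fin m := ⟨2, by omega⟩
  let z : Fin n := ⟨0, by omega⟩
  let z1 : Fin n := ⟨1, by omega⟩
  have ha1 : x1 ≠ a := by intro h; have := congrArg Fin.val h; simp [x1, a] at this
  have ha2 : x2 ≠ a := by intro h; have := congrArg Fin.val h; simp [x2, a] at this
  have ha12 : x1 ≠ x2 := by intro h; have := congrArg Fin.val h; simp [x1, x2] at this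
  have hz : z1 ≠ z := by intro h; have := congrArg Fin.val h; simp [z1, z] at this
  let τ : Fin n ≃ Fin n := Equiv.swap z z1
  have hτ : τ z ≠ z := by
    show Equiv.swap z z1 z ≠ z
    rw [Equiv.swap_apply_left]; exact hz
  let σ : Fin s → (Fin n ≃ Fin n) := fun i =>
    if IsotopicToGroup (Q i) then τ else Equiv.refl _
  have hfam := family_of (fun i => gp (Q i) (cell a a (σ i) (R i)))
    (fun i => gp_quasi (hQ i) (fun x y => cell_quasi a a (σ i) (hR i) x y)) ?_
    (fun i j hij => gp_orth (hQo i j hij) (fun x y => cell_orth a a (σ i) (σ j) (hRo i j hij) x y))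
  · simpa using hfam
  · intro i
    by_cases hi : IsotopicToGroup (Q i)
    · have e : σ i = τ := by simp only [σ, if_pos hi]
      simp only [e]
      by_cases hxy : Q i x1 x1 ≠ Q i a a
      · exact twist_not (hQ i) hi (hR i) ha1 ha1 hxy τ hτ
      · have hxy' : Q i x1 x2 ≠ Q i a a := by
          intro h
          rw [not_not] at hxy
          apply ha12
          exact ((hQ i).1 x1 (Q i a a)).unique hxy h
        exact twist_not (hQ i) hi (hR i) ha1 ha2 hxy' τ hτ
    · have e : σ i = Equiv.refl _ := by simp only [σ, if_neg hi]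
      simp only [e]
      have e2 : gp (Q i) (cell a a (Equiv.refl (Fin n)) (R i)) = prod (Q i) (R i) := by
        funext x y
        simp [gp, cell, prod]
      rw [e2]
      exact fun h => hi (prod_group (hQ i) h)

theorem M_twist {m n s : ℕ} (hm : 3 ≤ m) (hn : 2 ≤ n) (h1 : HasMols m s)
    (h2 : HasMols n s) : s ≤ M (m * n) :=
  (M_isGreatest (by nlinarith)).2 (family_twist hm hn h1 h2)

/-- The condition of MacNeish's bound. -/
def Cond (n s : ℕ) : Prop := ∀ p : ℕ, p.Prime → p ∣ n → s + 1 ≤ p ^ (n.factorization p)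

theorem cond_left {a b s : ℕ} (ha : a ≠ 0) (hb : b ≠ 0) (hab : Nat.Coprime a b)
    (h : Cond (a * b) s) : Cond a s := by
  intro p hp hpa
  have h1 := h p hp (Dvd.dvd.mul_right hpa b)
  have h2 : ¬ p ∣ b := fun h3 => by
    have := Nat.dvd_gcd hpa h3
    rw [hab] at this
    exact hp.one_lt.ne' (Nat.dvd_one.mp this)
  have hf : (a * b).factorization p = a.factorization p + b.factorization p := by
    rw [Nat.factorization_mul ha hb]; rfl
  rw [hf, Nat.factorization_eq_zero_of_not_dvd h2, add_zero] at h1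
  exact h1

theorem composite (n : ℕ) : 2 ≤ n → ¬ n.Prime → n ≠ 4 → n ≠ 8 → ∀ s, Cond n s → s ≤ M n := by
  induction n using Nat.recOnPosPrimePosCoprime with
  | prime_pow p k hp hk =>
    intro _ hnp h4 h8 s hs
    have hk2 : 2 ≤ k := by
      by_contra hlt
      have : k = 1 := by omega
      subst this
      rw [pow_one] at hnp
      exact hnp hp
    have h1 := hs p hp (dvd_pow_self p (by omega))
    rw [hp.factorization_pow, Finsupp.single_eq_same] at h1
    rw [MolsF.M_prime_pow p k hp hk2 h4 h8]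
    omega
  | zero => intro h; omega
  | one => intro h; omega
  | coprime a b ha hb hab _ _ =>
    intro _ _ _ _ s hs
    have hca := cond_left (by omega) (by omega) hab hs
    have hcb : Cond b s := cond_left (by omega) (by omega) hab.symm (by rw [mul_comm]; exact hs)
    have m1 := macneish a (by omega) s hca
    have m2 := macneish b (by omega) s hcb
    by_cases h3 : 3 ≤ a
    · exact M_twist h3 hb m1 m2
    · have ha2 : a = 2 := by omega
      have hb3 : 3 ≤ b := by
        by_contra hlt
        have : b = 2 := by omega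
        subst ha2 this
        exact absurd hab (by decide)
      rw [mul_comm]
      exact M_twist hb3 (by omega) m2 m1

end Pool.Agent.Helper478.MolsH
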