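import Mathlib
import Pool.Agent.Helper184.MolsDefs

/-! Quadratic orthomorphisms: lower bound for `M p`, `p` prime. -/

set_option autoImplicit false
set_option linter.unusedSectionVars false

namespace Pool.Agent.Helper478.MolsI

open Pool.Agent.Helper184.Mols

section
variable {F : Type} [Field F] [Finite F]

open Classical in
/-- `z ↦ A z` on squares, `z ↦ B z` on nonsquares. -/
noncomputable def phi (A B z : F) : F := if IsSquare z then A * z else B * z

/-- The quadratic latin square. -/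
noncomputable def L (A B x y : F) : F := x + phi A B (y - x)

theorem phi_zero (A B : F) : phi A B 0 = 0 := by
  unfold phi; split_ifs <;> simp

theorem phi_sub (A B C D z : F) : phi A B z - phi C D z = phi (A - C) (B - D) z := by
  unfold phi; split_ifs <;> ring

theorem phi_sub_id (A B z : F) : phi A B z - z = phi (A - 1) (B - 1) z := by
  unfold phi; split_ifs <;> ring

theorem phi_inj {A B : F} (hA : A ≠ 0) (hB : B ≠ 0) (hAB : IsSquare (A * B)) :
    Function.Injective (phi A B) := by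
  have key : ∀ z w : F, IsSquare z → ¬ IsSquare w → A * z = B * w → False := by
    intro z w hz hw h
    apply hw
    have e : w = (A * B) * z * (B⁻¹ * B⁻¹) := by
      field_simp
      linear_combination -h
    rw [e]
    exact (hAB.mul hz).mul ⟨B⁻¹, rfl⟩
  intro z w h
  unfold phi at h
  split_ifs at h with h1 h2 h2
  · exact mul_left_cancel₀ hA h
  · exact (key z w h1 h2 h).elim
  · exact (key w z h2 h1 h.symm).elim
  · exact mul_left_cancel₀ hB h

theorem L_quasi {A B : F} (hA : A ≠ 0) (hB : B ≠ 0) (hAB : IsSquare (A * B))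
    (hA1 : A - 1 ≠ 0) (hB1 : B - 1 ≠ 0) (hAB1 : IsSquare ((A - 1) * (B - 1))) :
    IsQuasigroup (L A B) := by
  have i1 := phi_inj hA hB hAB
  have i2 := phi_inj hA1 hB1 hAB1
  have s1 := Finite.surjective_of_injective i1
  have s2 := Finite.surjective_of_injective i2
  constructor
  · intro x w
    obtain ⟨z, hz⟩ := s1 (w - x)
    refine ⟨z + x, ?_, ?_⟩
    · simp only [L]
      rw [add_sub_cancel_right, hz]; ring
    · intro y hy
      simp only [L] at hy
      have : phi A B (y - x) = phi A B z := by rw [hz, ← hy]; ring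
      have := i1 this
      rw [← this]; ring
  · intro y w
    obtain ⟨z, hz⟩ := s2 (w - y)
    refine ⟨y - z, ?_, ?_⟩
    · simp only [L]
      have e : y - (y - z) = z := by ring
      rw [← phi_sub_id] at hz
      rw [e]
      linear_combination hz
    · intro x hx
      simp only [L] at hx
      have : phi (A - 1) (B - 1) (y - x) = phi (A - 1) (B - 1) z := by
        rw [hz, ← phi_sub_id]
        linear_combination hx
      have := i2 this
      rw [← this]; ring

theorem L_orth {A B C D : F} (h1 : A - C ≠ 0) (h2 : B - D ≠ 0)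
    (h3 : IsSquare ((A - C) * (B - D))) : Orthogonal (L A B) (L C D) := by
  have i1 := phi_inj h1 h2 h3
  rintro ⟨x, y⟩ ⟨x', y'⟩ h
  simp only [L, Prod.mk.injEq] at h
  obtain ⟨e1, e2⟩ := h
  have e3 : phi (A - C) (B - D) (y - x) = phi (A - C) (B - D) (y' - x') := by
    rw [← phi_sub, ← phi_sub]
    linear_combination e1 - e2
  have e4 := i1 e3
  rw [e4] at e1
  have e5 : x = x' := by linear_combination e1
  subst e5
  have e6 : y = y' := by linear_combination e4
  rw [e6]

end

theorem not_group {p : ℕ} [hp : Fact p.Prime] (hp2 : p ≠ 2) {A B : ZMod p} (hAB : A ≠ B) :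
    ¬ IsotopicToGroup (L A B) := by
  rintro ⟨G, hGG, α, β, γ, h⟩
  have hcard : Nat.card G = p := by rw [← Nat.card_congr α, Nat.card_zmod]
  have hfin : Finite G := Finite.of_equiv _ α
  have hcyc : IsCyclic G := isCyclic_of_prime_card hcard
  have hcomm : ∀ a b : G, a * b = b * a := by
    obtain ⟨g, hg⟩ := hcyc.exists_generator
    intro a b
    obtain ⟨m, rfl⟩ := Subgroup.mem_zpowers_iff.mp (hg a)
    obtain ⟨n, rfl⟩ := Subgroup.mem_zpowers_iff.mp (hg b)
    exact ((Commute.refl g).zpow_zpow m n).eq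
  have hstep : ∀ x y : ZMod p, γ (L A B x y + 1) = α (x + 1) * β (y + 1) := by
    intro x y
    rw [← h]
    congr 1
    simp only [L]
    have e : y + 1 - (x + 1) = y - x := by ring
    rw [e]; ring
  obtain ⟨θ1, hθ1⟩ : ∃ θ : G → G, θ = fun g => α (α.symm g + 1) := ⟨_, rfl⟩
  obtain ⟨θ2, hθ2⟩ : ∃ θ : G → G, θ = fun g => β (β.symm g + 1) := ⟨_, rfl⟩
  obtain ⟨θ3, hθ3⟩ : ∃ θ : G → G, θ = fun g => γ (γ.symm g + 1) := ⟨_, rfl⟩
  have h3 : ∀ g k : G, θ3 (g * k) = θ1 g * θ2 k := by
    intro g k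
    have e1 := hstep (α.symm g) (β.symm k)
    have e2 := h (α.symm g) (β.symm k)
    rw [Equiv.apply_symm_apply, Equiv.apply_symm_apply] at e2
    rw [hθ1, hθ2, hθ3]
    simp only
    rw [← e2, Equiv.symm_apply_apply, e1]
  have e1 : ∀ g, θ3 g = θ1 g * θ2 1 := by intro g; rw [← h3, mul_one]
  have e2 : ∀ g, θ3 g = θ1 1 * θ2 g := by intro g; rw [← h3, one_mul]
  have eu : θ3 1 = θ1 1 * θ2 1 := e1 1
  have emul : ∀ g k, θ3 (g * k) = θ3 g * (θ3 1)⁻¹ * θ3 k := by
    intro g k
    rw [h3, eu, e1 g, e2 k]; group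
  let ψ : G →* G := MonoidHom.mk' (fun g => θ3 g * (θ3 1)⁻¹) (by
    intro g k
    rw [emul]; group)
  have hψ : ∀ g, ψ g = θ3 g * (θ3 1)⁻¹ := fun _ => rfl
  let χ : G →* G := MonoidHom.mk' (fun g => (ψ g)⁻¹ * g) (by
    intro g k
    rw [map_mul, mul_inv_rev, hcomm (ψ k)⁻¹ (ψ g)⁻¹]
    have := hcomm (ψ k)⁻¹ g
    calc (ψ g)⁻¹ * (ψ k)⁻¹ * (g * k) = (ψ g)⁻¹ * ((ψ k)⁻¹ * g) * k := by group
      _ = (ψ g)⁻¹ * (g * (ψ k)⁻¹) * k := by rw [this]
      _ = (ψ g)⁻¹ * g * ((ψ k)⁻¹ * k) := by group)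
  have hχ : ∀ g, χ g = (ψ g)⁻¹ * g := fun _ => rfl
  have : Fact (Nat.card G).Prime := ⟨by rw [hcard]; exact hp.out⟩
  rcases Subgroup.eq_bot_or_eq_top_of_prime_card χ.ker with hk | hk
  · -- a fixed point
    have hinj : Function.Injective χ := (MonoidHom.ker_eq_bot_iff χ).mp hk
    obtain ⟨x, hx⟩ := (Finite.surjective_of_injective hinj) (θ3 1)
    rw [hχ, hψ] at hx
    have hfix : θ3 x = x := by
      have e : x = (θ3 x * (θ3 1)⁻¹) * θ3 1 := inv_mul_eq_iff_eq_mul.mp hx
      rw [inv_mul_cancel_right] at e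
      exact e.symm
    rw [hθ3] at hfix
    simp only at hfix
    have e := congrArg γ.symm hfix
    rw [Equiv.symm_apply_apply] at e
    have : (1 : ZMod p) = 0 := by linear_combination e
    exact one_ne_zero this
  · have hid : ∀ g, θ3 g = g * θ3 1 := by
      intro g
      have hg : g ∈ χ.ker := by rw [hk]; trivial
      rw [MonoidHom.mem_ker, hχ, hψ] at hg
      have e : g = θ3 g * (θ3 1)⁻¹ := by
        have := inv_mul_eq_one.mp hg
        exact this.symm
      calc θ3 g = (θ3 g * (θ3 1)⁻¹) * θ3 1 := by group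
        _ = g * θ3 1 := by rw [← e]
    obtain ⟨u, hu⟩ : ∃ u, u = θ3 1 := ⟨_, rfl⟩
    obtain ⟨b, hb⟩ : ∃ b, b = (θ1 1)⁻¹ * u := ⟨_, rfl⟩
    have hγ : ∀ z, γ (z + 1) = γ z * u := by
      intro z
      have := hid (γ z)
      rw [← hu, hθ3] at this
      simp only [Equiv.symm_apply_apply] at this
      exact this
    have hβ : ∀ y, β (y + 1) = β y * b := by
      intro y
      have f1 : θ2 (β y) = β (y + 1) := by rw [hθ2]; simp
      have f2 := e2 (β y)
      rw [hid, ← hu] at f2
      rw [← f1, hb]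
      have f3 : θ2 (β y) = (θ1 1)⁻¹ * (β y * u) := by rw [f2]; group
      rw [f3, ← mul_assoc, hcomm (θ1 1)⁻¹ (β y), mul_assoc]
    have hγn : ∀ n : ℕ, γ (n : ZMod p) = γ 0 * u ^ n := by
      intro n
      induction n with
      | zero => simp
      | succ n ih => rw [Nat.cast_succ, hγ, ih, pow_succ, mul_assoc]
    have hβn : ∀ n : ℕ, β (n : ZMod p) = β 0 * b ^ n := by
      intro n
      induction n with
      | zero => simp
      | succ n ih => rw [Nat.cast_succ, hβ, ih, pow_succ, mul_assoc]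
    have hL0 : ∀ y : ZMod p, L A B 0 y = phi A B y := by intro y; simp [L]
    have h00 : γ 0 = α 0 * β 0 := by
      rw [← h, hL0, phi_zero]
    have hval : ∀ y : ZMod p, u ^ (phi A B y).val = b ^ y.val := by
      intro y
      have f1 := h 0 y
      rw [hL0] at f1
      have f2 := hγn (phi A B y).val
      have f3 := hβn y.val
      rw [ZMod.natCast_zmod_val] at f2 f3
      rw [f2, f3, ← mul_assoc, ← h00] at f1
      exact mul_left_cancel f1
    have : Fact (1 < p) := ⟨hp.out.one_lt⟩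
    have hb1 : u ^ A.val = b := by
      have := hval 1
      have e : phi A B 1 = A := by simp [phi]
      rw [e, ZMod.val_one, pow_one] at this
      exact this
    have hu1 : u ≠ 1 := by
      intro h1
      have := hγ 0
      rw [h1, mul_one] at this
      have := γ.injective this
      rw [zero_add] at this
      exact one_ne_zero this
    have hord : orderOf u = p := by
      apply orderOf_eq_prime _ hu1
      rw [← hcard]; exact pow_card_eq_one'
    have hlin : ∀ y : ZMod p, phi A B y = A * y := by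
      intro y
      have f := hval y
      rw [← hb1, ← pow_mul, pow_eq_pow_iff_modEq, hord, ← ZMod.natCast_eq_natCast_iff] at f
      rw [Nat.cast_mul, ZMod.natCast_zmod_val, ZMod.natCast_zmod_val, ZMod.natCast_zmod_val] at f
      exact f
    obtain ⟨y, hy⟩ := FiniteField.exists_nonsquare (F := ZMod p) (by rw [ZMod.ringChar_zmod_n]; exact hp2)
    have f := hlin y
    unfold phi at f
    rw [if_neg hy] at f
    have hy0 : y ≠ 0 := by rintro rfl; exact hy IsSquare.zero
    exact hAB (mul_right_cancel₀ hy0 f).symm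

/-- `M p ≥ (p - 5) / 2` for every prime `p ≥ 5`. -/
theorem M_prime (p : ℕ) (hp : p.Prime) (h5 : 5 ≤ p) : (p - 5) / 2 ≤ M p := by
  classical
  have : Fact p.Prime := ⟨hp⟩
  have h3 : (3 : ZMod p) ≠ 0 := by
    intro h
    have : ((3 : ℕ) : ZMod p) = 0 := by exact_mod_cast h
    rw [ZMod.natCast_eq_zero_iff] at this
    have := Nat.le_of_dvd (by norm_num) this
    omega
  have h2 : (2 : ZMod p) ≠ 0 := by
    intro h
    have : ((2 : ℕ) : ZMod p) = 0 := by exact_mod_cast h
    rw [ZMod.natCast_eq_zero_iff] at this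
    have := Nat.le_of_dvd (by norm_num) this
    omega
  have h4 : (4 : ZMod p) ≠ 0 := by
    have : (4 : ZMod p) = 2 * 2 := by norm_num
    rw [this]; exact mul_ne_zero h2 h2
  set T : Finset (ZMod p) := Finset.univ.erase 0 with hT
  set S : Finset (ZMod p) := T.image (fun x => x ^ 2) with hS
  have hTc : T.card = p - 1 := by
    rw [hT, Finset.card_erase_of_mem (Finset.mem_univ _), Finset.card_univ, ZMod.card]
  have hSc : T.card ≤ 2 * S.card := by
    apply Finset.card_le_mul_card_image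
    intro a ha
    obtain ⟨x, hx, rfl⟩ := Finset.mem_image.mp ha
    refine le_trans (Finset.card_le_card (t := {x, -x}) ?_) Finset.card_le_two
    intro y hy
    rw [Finset.mem_filter] at hy
    have e : (y - x) * (y + x) = 0 := by linear_combination hy.2
    rw [Finset.mem_insert, Finset.mem_singleton]
    rcases mul_eq_zero.mp e with e | e
    · exact Or.inl (sub_eq_zero.mp e)
    · exact Or.inr (eq_neg_of_add_eq_zero_left e)
  set J : Finset (ZMod p) := (S.erase 1).erase 4 with hJ
  have hJc : (p - 5) / 2 ≤ J.card := by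
    have e1 := Finset.pred_card_le_card_erase (s := S) (a := 1)
    have e2 := Finset.pred_card_le_card_erase (s := S.erase 1) (a := 4)
    rw [← hJ] at e2
    omega
  have hJm : ∀ w : {w // w ∈ J}, IsSquare w.1 ∧ w.1 ≠ 0 ∧ w.1 ≠ 1 ∧ w.1 ≠ 4 := by
    rintro ⟨w, hw⟩
    rw [hJ, Finset.mem_erase, Finset.mem_erase, hS, Finset.mem_image] at hw
    obtain ⟨hw4, hw1, x, hx, rfl⟩ := hw
    rw [hT, Finset.mem_erase] at hx
    exact ⟨⟨x, by ring⟩, pow_ne_zero 2 hx.1, hw1, hw4⟩
  have hfam := family_of (S := ZMod p) (I := {w // w ∈ J})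
    (fun w => L ((4 - w.1) / 3) ((4 - w.1) / (3 * w.1))) ?_ ?_ ?_
  · rw [ZMod.card, Fintype.card_coe] at hfam
    exact hJc.trans ((M_isGreatest hp.two_le).2 hfam)
  · intro w
    obtain ⟨⟨r, hr⟩, hw0, hw1, hw4⟩ := hJm w
    have hr0 : r ≠ 0 := by rintro rfl; apply hw0; rw [hr]; ring
    have f4 : (4 : ZMod p) - w.1 ≠ 0 := fun h => hw4 (sub_eq_zero.mp h).symm
    have f1 : (1 : ZMod p) - w.1 ≠ 0 := fun h => hw1 (sub_eq_zero.mp h).symm
    have g1 : (4 - w.1) / 3 - 1 = (1 - w.1) / 3 := by field_simp; ring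
    have g2 : (4 - w.1) / (3 * w.1) - 1 = 4 * (1 - w.1) / (3 * w.1) := by field_simp; ring
    apply L_quasi
    · exact div_ne_zero f4 h3
    · exact div_ne_zero f4 (mul_ne_zero h3 hw0)
    · refine ⟨(4 - w.1) / (3 * r), ?_⟩
      rw [hr]; field_simp
    · rw [g1]; exact div_ne_zero f1 h3
    · rw [g2]; exact div_ne_zero (mul_ne_zero h4 f1) (mul_ne_zero h3 hw0)
    · rw [g1, g2]
      refine ⟨2 * (1 - w.1) / (3 * r), ?_⟩
      rw [hr]; field_simp; ring
  · intro w
    obtain ⟨-, hw0, hw1, hw4⟩ := hJm w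
    apply not_group (by omega)
    intro h
    have f4 : (4 : ZMod p) - w.1 ≠ 0 := fun h => hw4 (sub_eq_zero.mp h).symm
    apply hw1
    field_simp at h
    exact h
  · intro w v hwv
    obtain ⟨⟨r, hr⟩, hw0, hw1, hw4⟩ := hJm w
    obtain ⟨⟨s, hs⟩, hv0, hv1, hv4⟩ := hJm v
    have hr0 : r ≠ 0 := by rintro rfl; apply hw0; rw [hr]; ring
    have hs0 : s ≠ 0 := by rintro rfl; apply hv0; rw [hs]; ring
    have hvw : v.1 - w.1 ≠ 0 := fun h => hwv (Subtype.ext (sub_eq_zero.mp h).symm)
    have g1 : (4 - w.1) / 3 - (4 - v.1) / 3 = (v.1 - w.1) / 3 := by field_simp; ring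
    have g2 : (4 - w.1) / (3 * w.1) - (4 - v.1) / (3 * v.1)
        = 4 * (v.1 - w.1) / (3 * w.1 * v.1) := by field_simp; ring
    apply L_orth
    · rw [g1]; exact div_ne_zero hvw h3
    · rw [g2]; exact div_ne_zero (mul_ne_zero h4 hvw) (mul_ne_zero (mul_ne_zero h3 hw0) hv0)
    · rw [g1, g2]
      refine ⟨2 * (v.1 - w.1) / (3 * r * s), ?_⟩
      rw [hr, hs]; field_simp; ring

end Pool.Agent.Helper478.MolsI
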